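import Pool.Agent.helper72.RDC.Neumann

/-!
# Averaging over conjugates in a representation with rapid decay
-/

namespace Pool.Agent.helper72.RDC

open Pool.Agent.helper91.RDR
open scoped InnerProductSpace

variable {G : Type*} [Group G] {L : G → ℕ} {V : Type*} [NormedAddCommGroup V]
  [InnerProductSpace ℂ V] [CompleteSpace V]

theorem norm_pi_le [Nontrivial V] (π : G →* unitary (V →L[ℂ] V)) (g : G) :
    ‖(π g : V →L[ℂ] V)‖ ≤ 1 :=
  (CStarRing.norm_coe_unitary (π g)).le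

theorem norm_avg (π : G →* unitary (V →L[ℂ] V)) {s C : ℝ} (hs : 0 < s) (hC : 0 ≤ C)
    (h : ∀ v w : V, ‖v‖ = 1 → ‖w‖ = 1 → ∀ F : Finset G,
      ∑ g ∈ F, ‖inner ℂ ((π g : V →L[ℂ] V) v) w‖ ^ 2 * (1 + (L g : ℝ)) ^ (-s) ≤ C)
    {B : Finset G} {R : ℕ} (hB : ∀ x ∈ B, L x ≤ R) (hB0 : B.Nonempty) :
    ‖∑ x ∈ B, ((B.card : ℂ)⁻¹) • (π x : V →L[ℂ] V)‖ ^ 2 ≤ C * (1 + (R : ℝ)) ^ s / B.card := by
  classical
  have hM : 0 < (B.card : ℝ) := by exact_mod_cast hB0.card_pos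
  obtain ⟨e, he⟩ : ∃ e : G →₀ ℂ, e = Finsupp.indicator B (fun _ _ => ((B.card : ℂ)⁻¹)) := ⟨_, rfl⟩
  have hsup : ∀ x, x ∈ e.support ↔ x ∈ B := by
    intro x
    rw [Finsupp.mem_support_iff, he]
    constructor
    · intro h1
      by_contra hx
      exact h1 (Finsupp.indicator_of_notMem hx _)
    · intro hx
      rw [Finsupp.indicator_of_mem hx]
      exact inv_ne_zero (by exact_mod_cast hB0.card_pos.ne')
  have hsup' : e.support = B := Finset.ext hsup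
  have hval : ∀ x ∈ B, e x = ((B.card : ℂ)⁻¹) := fun x hx => by
    rw [he, Finsupp.indicator_of_mem hx]
  have h1 := rd_norm π hC h e
  rw [Finsupp.sum, Finsupp.sum, hsup'] at h1
  have e1 : ∑ x ∈ B, e x • (π x : V →L[ℂ] V) = ∑ x ∈ B, ((B.card : ℂ)⁻¹) • (π x : V →L[ℂ] V) :=
    Finset.sum_congr rfl fun x hx => by rw [hval x hx]
  rw [e1] at h1
  refine h1.trans ?_
  have e2 : ∑ x ∈ B, ‖e x‖ ^ 2 * (1 + (L x : ℝ)) ^ s ≤
      ∑ x ∈ B, ((B.card : ℝ)⁻¹) ^ 2 * (1 + (R : ℝ)) ^ s := by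
    refine Finset.sum_le_sum fun x hx => ?_
    rw [hval x hx, norm_inv, Complex.norm_natCast]
    have h3 : (1 + (L x : ℝ)) ^ s ≤ (1 + (R : ℝ)) ^ s := by
      apply Real.rpow_le_rpow (by positivity) _ hs.le
      have : (L x : ℝ) ≤ R := by exact_mod_cast hB x hx
      linarith
    gcongr
  calc C * ∑ x ∈ B, ‖e x‖ ^ 2 * (1 + (L x : ℝ)) ^ s
      ≤ C * ∑ x ∈ B, ((B.card : ℝ)⁻¹) ^ 2 * (1 + (R : ℝ)) ^ s := by gcongr
    _ = C * (1 + (R : ℝ)) ^ s / B.card := by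
        rw [Finset.sum_const, nsmul_eq_mul]
        field_simp

/-- One averaging. -/
theorem trace_le_sep [Nontrivial V] (hL : IsLength L) (π : G →* unitary (V →L[ℂ] V)) {s C : ℝ}
    (hs : 0 < s) (hC : 0 ≤ C)
    (h : ∀ v w : V, ‖v‖ = 1 → ‖w‖ = 1 → ∀ F : Finset G,
      ∑ g ∈ F, ‖inner ℂ ((π g : V →L[ℂ] V) v) w‖ ^ 2 * (1 + (L g : ℝ)) ^ (-s) ≤ C)
    [DecidableEq G] (f : G →₀ ℂ) {A : Finset G} (hA : A.Nonempty) {m r : ℕ} (hm : ∀ a ∈ A, L a ≤ m)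
    (hr : ∀ x ∈ f.support.erase 1, L x ≤ r)
    (hinj : ∀ x ∈ f.support.erase 1, Set.InjOn (fun a => a * x * a⁻¹) (A : Set G)) :
    ‖f 1‖ ≤ ‖f.sum fun g c => c • (π g : V →L[ℂ] V)‖ +
      (∑ x ∈ f.support.erase 1, ‖f x‖) *
        Real.sqrt (C * (1 + ((2 * m + r : ℕ) : ℝ)) ^ s / A.card) := by
  obtain ⟨T, hT⟩ : ∃ T : V →L[ℂ] V, T = f.sum fun g c => c • (π g : V →L[ℂ] V) := ⟨_, rfl⟩
  rw [← hT]
  have hM : 0 < (A.card : ℝ) := by exact_mod_cast hA.card_pos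
  have hMc : (A.card : ℂ) ≠ 0 := by exact_mod_cast hA.card_pos.ne'
  obtain ⟨E, hE⟩ : ∃ E : G → (V →L[ℂ] V), E = fun x =>
      ∑ a ∈ A, ((A.card : ℂ)⁻¹) • (π (a * x * a⁻¹) : V →L[ℂ] V) := ⟨_, rfl⟩
  have hEn : ∀ x ∈ f.support.erase 1, ‖E x‖ ≤
      Real.sqrt (C * (1 + ((2 * m + r : ℕ) : ℝ)) ^ s / A.card) := by
    intro x hx
    apply Real.le_sqrt_of_sq_le
    obtain ⟨B, hB⟩ : ∃ B, B = A.image fun a => a * x * a⁻¹ := ⟨_, rfl⟩
    have hBc : B.card = A.card := by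
      rw [hB]
      exact Finset.card_image_of_injOn (hinj x hx)
    have hBE : E x = ∑ y ∈ B, ((B.card : ℂ)⁻¹) • (π y : V →L[ℂ] V) := by
      rw [hBc, hB, Finset.sum_image (hinj x hx), hE]
    rw [hBE, ← hBc]
    refine norm_avg π hs hC h ?_ ?_
    · intro y hy
      rw [hB, Finset.mem_image] at hy
      obtain ⟨a, ha, rfl⟩ := hy
      have h1 := hL.mul (a * x) a⁻¹
      have h2 := hL.mul a x
      have h3 := hm a ha
      have h4 := hr x hx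
      rw [hL.inv] at h1
      omega
    · rw [hB]
      exact hA.image _
  have hE1 : E 1 = 1 := by
    rw [hE]
    have h1 : ∀ a ∈ A, ((A.card : ℂ)⁻¹) • (π (a * 1 * a⁻¹) : V →L[ℂ] V) =
        ((A.card : ℂ)⁻¹) • (1 : V →L[ℂ] V) := by
      intro a _
      rw [mul_one, mul_inv_cancel, map_one]
      rfl
    show ∑ a ∈ A, ((A.card : ℂ)⁻¹) • (π (a * 1 * a⁻¹) : V →L[ℂ] V) = 1
    rw [Finset.sum_congr rfl h1, Finset.sum_const, ← Nat.cast_smul_eq_nsmul ℂ, smul_smul,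
      mul_inv_cancel₀ hMc, one_smul]
  -- the average
  have havg : ∑ a ∈ A, ((A.card : ℂ)⁻¹) • ((π a : V →L[ℂ] V) * T * (π a⁻¹ : V →L[ℂ] V)) =
      ∑ x ∈ f.support, f x • E x := by
    have e1 : ∀ a ∈ A, ((A.card : ℂ)⁻¹) • ((π a : V →L[ℂ] V) * T * (π a⁻¹ : V →L[ℂ] V)) =
        ∑ x ∈ f.support, f x • (((A.card : ℂ)⁻¹) • (π (a * x * a⁻¹) : V →L[ℂ] V)) := by
      intro a _
      rw [hT, Finsupp.sum, Finset.mul_sum, Finset.sum_mul, Finset.smul_sum]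
      refine Finset.sum_congr rfl fun x _ => ?_
      rw [map_mul, map_mul]
      show _ = f x • ((A.card : ℂ)⁻¹) • ((π a : V →L[ℂ] V) * (π x : V →L[ℂ] V) *
        (π a⁻¹ : V →L[ℂ] V))
      rw [mul_smul_comm, smul_mul_assoc, smul_comm]
    rw [Finset.sum_congr rfl e1, Finset.sum_comm, hE]
    refine Finset.sum_congr rfl fun x _ => ?_
    rw [Finset.smul_sum]
  have hle : ‖∑ a ∈ A, ((A.card : ℂ)⁻¹) • ((π a : V →L[ℂ] V) * T * (π a⁻¹ : V →L[ℂ] V))‖ ≤ ‖T‖ := by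
    calc _ ≤ ∑ a ∈ A, ‖((A.card : ℂ)⁻¹) • ((π a : V →L[ℂ] V) * T * (π a⁻¹ : V →L[ℂ] V))‖ :=
          norm_sum_le _ _
      _ ≤ ∑ a ∈ A, (A.card : ℝ)⁻¹ * ‖T‖ := by
          refine Finset.sum_le_sum fun a _ => ?_
          rw [norm_smul, norm_inv, Complex.norm_natCast]
          have h1 : ‖(π a : V →L[ℂ] V) * T * (π a⁻¹ : V →L[ℂ] V)‖ ≤ 1 * ‖T‖ * 1 := by
            refine (norm_mul_le _ _).trans ?_
            refine mul_le_mul ((norm_mul_le _ _).trans ?_) (norm_pi_le π _) (norm_nonneg _)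
              (by positivity)
            exact mul_le_mul_of_nonneg_right (norm_pi_le π a) (norm_nonneg _)
          rw [one_mul, mul_one] at h1
          gcongr
      _ = ‖T‖ := by
          rw [Finset.sum_const, nsmul_eq_mul]
          field_simp
  rw [havg] at hle
  have hsplit : ∑ x ∈ f.support, f x • E x = f 1 • (1 : V →L[ℂ] V) +
      ∑ x ∈ f.support.erase 1, f x • E x := by
    by_cases h1 : (1 : G) ∈ f.support
    · rw [← Finset.add_sum_erase _ _ h1, hE1]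
    · rw [Finset.erase_eq_of_notMem h1, Finsupp.notMem_support_iff.1 h1, zero_smul, zero_add]
  rw [hsplit] at hle
  have h5 : ‖∑ x ∈ f.support.erase 1, f x • E x‖ ≤ (∑ x ∈ f.support.erase 1, ‖f x‖) *
        Real.sqrt (C * (1 + ((2 * m + r : ℕ) : ℝ)) ^ s / A.card) := by
    rw [Finset.sum_mul]
    refine (norm_sum_le _ _).trans (Finset.sum_le_sum fun x hx => ?_)
    rw [norm_smul]
    exact mul_le_mul_of_nonneg_left (hEn x hx) (norm_nonneg _)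
  have h6 : ‖f 1 • (1 : V →L[ℂ] V)‖ = ‖f 1‖ := by
    rw [norm_smul, norm_one, mul_one]
  have h7 : f 1 • (1 : V →L[ℂ] V) = (f 1 • (1 : V →L[ℂ] V) +
      ∑ x ∈ f.support.erase 1, f x • E x) - ∑ x ∈ f.support.erase 1, f x • E x := by
    rw [add_sub_cancel_right]
  have h8 := norm_sub_le (f 1 • (1 : V →L[ℂ] V) + ∑ x ∈ f.support.erase 1, f x • E x)
    (∑ x ∈ f.support.erase 1, f x • E x)
  rw [← h7, h6] at h8
  linarith

/-- **The trace is bounded by the norm of the representation.** -/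
theorem trace_le [Nontrivial V] (hL : IsLength L)
    (hS : ∀ F : Finset G, (∀ h ∈ F, h ≠ 1) → ∀ k : ℕ, ∃ c : ℕ, ∀ n0 : ℕ, ∃ n : ℕ, n0 ≤ n ∧
      ∀ h ∈ F, ((n ^ k : ℕ) : ℕ∞) ≤ ConjSize L h (c * n))
    (π : G →* unitary (V →L[ℂ] V)) (hπ : RepRD L π) (f : G →₀ ℂ) :
    ‖f 1‖ ≤ ‖f.sum fun g c => c • (π g : V →L[ℂ] V)‖ := by
  classical
  obtain ⟨s, hs, C, h⟩ := hπ
  have hC := RepRD.nonneg h
  obtain ⟨F, hF⟩ : ∃ F, F = f.support.erase 1 := ⟨_, rfl⟩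
  rcases F.eq_empty_or_nonempty with hF0 | hF0
  · have h1 := trace_le_sep hL π hs hC h f (A := {1}) (Finset.singleton_nonempty 1) (m := 0)
      (r := 0) (by simp [hL.one]) (by rw [← hF, hF0]; simp) (by rw [← hF, hF0]; simp)
    rw [← hF, hF0, Finset.sum_empty, zero_mul, add_zero] at h1
    exact h1
  obtain ⟨r, hr⟩ : ∃ r, ∀ x ∈ f.support.erase 1, L x ≤ r :=
    ⟨(f.support.erase 1).sup L, fun x hx => Finset.le_sup hx⟩
  obtain ⟨K1, hK1⟩ : ∃ K1, K1 = ∑ x ∈ f.support.erase 1, ‖f x‖ := ⟨_, rfl⟩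
  have hK10 : 0 ≤ K1 := by rw [hK1]; exact Finset.sum_nonneg fun _ _ => norm_nonneg _
  obtain ⟨k0, hk0⟩ := exists_nat_ge (s + 1)
  obtain ⟨q, hS⟩ := hS F (by rw [hF]; exact fun x hx => (Finset.mem_erase.1 hx).1)
    (k0 * 2 ^ F.card)
  obtain ⟨ρ, hρ⟩ : ∃ ρ : ℕ, ρ = rho F.card * q := ⟨_, rfl⟩
  obtain ⟨D, hD⟩ : ∃ D : ℝ, D = 2 * C * (1 + 2 * (ρ : ℝ) + r) ^ s := ⟨_, rfl⟩
  have hD0 : 0 ≤ D := by rw [hD]; positivity
  apply le_of_forall_pos_le_add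
  intro ε hε
  obtain ⟨N, hN⟩ := exists_nat_ge (K1 ^ 2 * D / ε ^ 2)
  obtain ⟨n, hn, hn2⟩ := hS (max N 2)
  have hn2' : 2 ≤ n := le_trans (le_max_right N 2) hn
  have hnN : N ≤ n := le_trans (le_max_left N 2) hn
  have hnr : (2 : ℝ) ≤ n := by exact_mod_cast hn2'
  have hk1 : 1 ≤ k0 := by
    have : (1 : ℝ) ≤ k0 := by linarith
    exact_mod_cast this
  have hpow : 2 ≤ n ^ k0 := le_trans hn2' (by
    calc n = n ^ 1 := (pow_one n).symm
      _ ≤ n ^ k0 := Nat.pow_le_pow_right (by omega) hk1)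
  have hsep : ∀ x ∈ F, (cc F.card (n ^ k0 - 1) : ℕ∞) < ConjSize L x (q * n) := by
    intro x hx
    refine lt_of_lt_of_le ?_ (hn2 x hx)
    have h1 := cc_lt F.card (n ^ k0 - 1)
    rw [Nat.sub_add_cancel (by omega), ← pow_mul] at h1
    exact_mod_cast h1
  obtain ⟨A, hA1, hA2, hA3⟩ := exists_sep hL hF0 hsep _ le_rfl
  rw [← mul_assoc, ← hρ] at hA2
  have hAne : A.Nonempty := by
    rw [← Finset.card_pos, hA1]
    omega
  rw [hF] at hA3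
  have h1 := trace_le_sep hL π hs hC h f hAne hA2 hr hA3
  rw [← hK1] at h1
  refine h1.trans (add_le_add_right ?_ _)
  -- the error
  have hcard : (n : ℝ) ^ k0 / 2 ≤ (A.card : ℝ) := by
    rw [hA1, Nat.cast_sub (by omega)]
    push_cast
    have : (2 : ℝ) ≤ (n : ℝ) ^ k0 := by exact_mod_cast hpow
    linarith
  have hn0 : (0 : ℝ) < n := by linarith
  have hb : (1 + ((2 * (ρ * n) + r : ℕ) : ℝ)) ^ s ≤
      (1 + 2 * (ρ : ℝ) + r) ^ s * (n : ℝ) ^ s := by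
    rw [← Real.mul_rpow (by positivity) hn0.le]
    apply Real.rpow_le_rpow (by positivity) _ hs.le
    push_cast
    have h2 : (r : ℝ) ≤ r * n := by
      have : (0 : ℝ) ≤ r := Nat.cast_nonneg r
      nlinarith
    nlinarith
  have herr : C * (1 + ((2 * (ρ * n) + r : ℕ) : ℝ)) ^ s / A.card ≤ D / n := by
    have hA0 : (0 : ℝ) < A.card := by exact_mod_cast hAne.card_pos
    rw [div_le_div_iff₀ hA0 hn0]
    have h3 : (n : ℝ) ^ s * n ≤ (n : ℝ) ^ k0 := by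
      rw [← Real.rpow_natCast (n : ℝ) k0]
      calc (n : ℝ) ^ s * n = (n : ℝ) ^ (s + 1) := by
            rw [Real.rpow_add hn0, Real.rpow_one]
        _ ≤ _ := Real.rpow_le_rpow_of_exponent_le (by linarith) hk0
    calc C * (1 + ((2 * (ρ * n) + r : ℕ) : ℝ)) ^ s * n
        ≤ C * ((1 + 2 * (ρ : ℝ) + r) ^ s * (n : ℝ) ^ s) * n := by gcongr
      _ = C * (1 + 2 * (ρ : ℝ) + r) ^ s * ((n : ℝ) ^ s * n) := by ring
      _ ≤ C * (1 + 2 * (ρ : ℝ) + r) ^ s * (n : ℝ) ^ k0 := by gcongr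
      _ = D * ((n : ℝ) ^ k0 / 2) := by rw [hD]; ring
      _ ≤ D * A.card := by gcongr
  have h4 : K1 * Real.sqrt (C * (1 + ((2 * (ρ * n) + r : ℕ) : ℝ)) ^ s / A.card) ≤
      K1 * Real.sqrt (D / n) := by
    gcongr
  refine h4.trans ?_
  have h5 : K1 * Real.sqrt (D / n) = Real.sqrt (K1 ^ 2 * (D / n)) := by
    rw [Real.sqrt_mul (by positivity), Real.sqrt_sq hK10]
  rw [h5]
  rw [Real.sqrt_le_left hε.le]
  have h6 : K1 ^ 2 * D / ε ^ 2 ≤ n := hN.trans (by exact_mod_cast hnN)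
  rw [div_le_iff₀ (by positivity)] at h6
  rw [← mul_div_assoc, div_le_iff₀ hn0]
  linarith

end Pool.Agent.helper72.RDC
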