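import Pool.Agent.helper91.RDR.Defs

/-!
# Conjugacy growth: definitions (MP_663661_an)
-/

namespace Pool.Agent.helper72.RDC

/-- The number of conjugates `g h g⁻¹` of `h` with `L g ≤ n` (`⊤` if infinite). -/
noncomputable def ConjSize {G : Type*} [Group G] (L : G → ℕ) (h : G) (n : ℕ) : ℕ∞ :=
  {x | ∃ g : G, L g ≤ n ∧ x = g * h * g⁻¹}.encard

/-- The subgroup `N` is amenable, in the form of Følner's condition: for every finite set `T` of
elements of `N` and every `ε > 0` there is a nonempty finite set `F` of elements of `N` such that,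
for every `t ∈ T`, at most `ε |F|` elements `x` of `F` have `t x ∉ F`. -/
def IsFolner {G : Type*} [Group G] (N : Subgroup G) : Prop :=
  ∀ T : Finset G, (∀ t ∈ T, t ∈ N) → ∀ ε : ℝ, 0 < ε → ∃ F : Finset G, F.Nonempty ∧
    (∀ x ∈ F, x ∈ N) ∧ ∀ t ∈ T, (({x : G | x ∈ F ∧ t * x ∉ F}.ncard : ℕ) : ℝ) ≤ ε * F.card

/-- The subgroup `N` is small for the length `L` and the set `A` of radii: `N` is amenable; every
`h ∈ N` has, for some `k`, at most `n ^ k` conjugates `g h g⁻¹` with `L g ≤ n`, for all `n ≥ k` in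
`A`; and every finitely generated subgroup of `N` has, for some `k`, at most `n ^ k` elements `g`
with `L g ≤ n`, for all `n ≥ k` in `A`. -/
def IsSmall {G : Type*} [Group G] (L : G → ℕ) (A : Set ℕ) (N : Subgroup G) : Prop :=
  IsFolner N ∧
    (∀ h ∈ N, ∃ k : ℕ, ∀ n ∈ A, k ≤ n → ConjSize L h n ≤ ((n ^ k : ℕ) : ℕ∞)) ∧
    ∀ T : Finset G, (∀ t ∈ T, t ∈ N) → ∃ k : ℕ, ∀ n ∈ A, k ≤ n →
      {g : G | g ∈ Subgroup.closure (T : Set G) ∧ L g ≤ n}.encard ≤ ((n ^ k : ℕ) : ℕ∞)

/-- The subgroup `H` has polynomial index in `G` for the length `L`: there are `C` and `d` such that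
for every `n` at most `C (n + 1) ^ d` cosets `g H` contain an element `g` with `L g ≤ n`. -/
def PolyIndex {G : Type*} [Group G] (L : G → ℕ) (H : Subgroup G) : Prop :=
  ∃ C d : ℕ, ∀ n : ℕ, {c : G ⧸ H | ∃ g : G, L g ≤ n ∧ (g : G ⧸ H) = c}.encard ≤
    ((C * (n + 1) ^ d : ℕ) : ℕ∞)

end Pool.Agent.helper72.RDC
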