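import Pool.Agent.helper72.RDC.Index
import Pool.Agent.helper91.RDR.Abel

/-!
# The subgroup of the elements with polynomially growing conjugacy classes is amenable
-/

namespace Pool.Agent.helper72.RDC

open Pool.Agent.helper91.RDR
open scoped InnerProductSpace Pointwise
open Filter Topology

variable {G : Type*} [Group G] {L : G → ℕ}

theorem conjSize_mono (h : G) {n m : ℕ} (hnm : n ≤ m) : ConjSize L h n ≤ ConjSize L h m :=
  Set.encard_le_encard fun _ ⟨g, hg, hx⟩ => ⟨g, hg.trans hnm, hx⟩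

theorem conjSize_one (n : ℕ) : ConjSize L (1 : G) n ≤ 1 := by
  have : {x : G | ∃ g : G, L g ≤ n ∧ x = g * 1 * g⁻¹} ⊆ {1} := by
    rintro x ⟨g, -, rfl⟩
    simp
  exact (Set.encard_le_encard this).trans (Set.encard_singleton _).le

theorem conjSize_mul (h h' : G) (n : ℕ) :
    ConjSize L (h * h') n ≤ ConjSize L h n * ConjSize L h' n := by
  have h1 : {x : G | ∃ g : G, L g ≤ n ∧ x = g * (h * h') * g⁻¹} ⊆
      (fun p : G × G => p.1 * p.2) '' ({x : G | ∃ g : G, L g ≤ n ∧ x = g * h * g⁻¹} ×ˢ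
        {x : G | ∃ g : G, L g ≤ n ∧ x = g * h' * g⁻¹}) := by
    rintro x ⟨g, hg, rfl⟩
    refine ⟨(g * h * g⁻¹, g * h' * g⁻¹), ⟨⟨g, hg, rfl⟩, ⟨g, hg, rfl⟩⟩, ?_⟩
    show g * h * g⁻¹ * (g * h' * g⁻¹) = _
    group
  refine (Set.encard_le_encard h1).trans ((Set.encard_image_le _ _).trans ?_)
  rw [Set.encard_prod]
  exact le_rfl

theorem conjSize_inv (h : G) (n : ℕ) : ConjSize L h⁻¹ n ≤ ConjSize L h n := by
  have h1 : {x : G | ∃ g : G, L g ≤ n ∧ x = g * h⁻¹ * g⁻¹} ⊆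
      (fun p : G => p⁻¹) '' {x : G | ∃ g : G, L g ≤ n ∧ x = g * h * g⁻¹} := by
    rintro x ⟨g, hg, rfl⟩
    refine ⟨g * h * g⁻¹, ⟨g, hg, rfl⟩, ?_⟩
    show (g * h * g⁻¹)⁻¹ = _
    group
  exact (Set.encard_le_encard h1).trans (Set.encard_image_le _ _)

theorem conjSize_conj (hL : IsLength L) (g h : G) (n : ℕ) :
    ConjSize L (g * h * g⁻¹) n ≤ ConjSize L h (n + L g) := by
  refine Set.encard_le_encard ?_
  rintro x ⟨y, hy, rfl⟩
  refine ⟨y * g, (hL.mul _ _).trans (by omega), ?_⟩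
  group

/-- the elements with polynomially growing conjugacy classes along the filter `l` -/
def pcSub (L : G → ℕ) (l : Filter ℕ) : Subgroup G where
  carrier := {h | ∀ C : ℕ, ∃ k : ℕ, ∀ᶠ n in l, ConjSize L h (C * n) ≤ ((n ^ k : ℕ) : ℕ∞)}
  one_mem' := fun C => ⟨0, Eventually.of_forall fun n => by
    rw [pow_zero]
    exact conjSize_one _⟩
  mul_mem' := by
    intro a b ha hb C
    obtain ⟨k, hk⟩ := ha C
    obtain ⟨k', hk'⟩ := hb C
    refine ⟨k + k', ?_⟩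
    filter_upwards [hk, hk'] with n h1 h2
    refine (conjSize_mul _ _ _).trans ((mul_le_mul' h1 h2).trans ?_)
    rw [pow_add]
    push_cast
    exact le_rfl
  inv_mem' := by
    intro a ha C
    obtain ⟨k, hk⟩ := ha C
    refine ⟨k, ?_⟩
    filter_upwards [hk] with n h1
    exact (conjSize_inv _ _).trans h1

theorem pcSub_normal (hL : IsLength L) {l : Filter ℕ} (hl : l ≤ atTop) :
    (pcSub L l).Normal := by
  refine ⟨fun h hh g C => ?_⟩
  obtain ⟨k, hk⟩ := hh (C + L g)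
  refine ⟨k, ?_⟩
  have h0 : ∀ᶠ n in l, 1 ≤ n := hl (eventually_ge_atTop 1)
  filter_upwards [hk, h0] with n h1 h2
  refine (conjSize_conj hL g h _).trans ((conjSize_mono h ?_).trans h1)
  rw [add_mul]
  gcongr
  exact Nat.le_mul_of_pos_right _ h2

/-- exponential growth against polynomial growth -/
theorem slow_step [DecidableEq G] {T : Finset G} {d : ℕ} {c : ℝ}
    (h : ∃ᶠ j : ℕ in atTop, ((T ^ j).card : ℝ) ≤ c * ((j : ℝ) + 1) ^ d) {ε : ℝ} (hε : 0 < ε) :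
    ∃ j : ℕ, ((T ^ (j + 1)).card : ℝ) ≤ (1 + ε) * (T ^ j).card := by
  by_contra hcon
  push Not at hcon
  have h1 : ∀ j : ℕ, (1 + ε) ^ j ≤ ((T ^ j).card : ℝ) := by
    intro j
    induction j with
    | zero => simp
    | succ j ih =>
      rw [pow_succ]
      have := hcon j
      nlinarith
  have hq : 1 < 1 + ε := by linarith
  have h2 := tendsto_pow_const_div_const_pow_of_one_lt d hq
  have h3 : Tendsto (fun j : ℕ => |c| * (1 + ε) * ((((j + 1 : ℕ) : ℝ)) ^ d / (1 + ε) ^ (j + 1)))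
      atTop (𝓝 (|c| * (1 + ε) * 0)) :=
    ((h2.comp (tendsto_add_atTop_nat 1))).const_mul _
  rw [mul_zero] at h3
  have h4 : ∀ᶠ j : ℕ in atTop,
      |c| * (1 + ε) * ((((j + 1 : ℕ) : ℝ)) ^ d / (1 + ε) ^ (j + 1)) < 1 :=
    h3.eventually (gt_mem_nhds one_pos)
  obtain ⟨j, hj1, hj2⟩ := (h.and_eventually h4).exists
  have h5 := (h1 j).trans hj1
  have hp : (0 : ℝ) < (1 + ε) ^ j := by positivity
  have h6 : |c| * (1 + ε) * ((((j + 1 : ℕ) : ℝ)) ^ d / (1 + ε) ^ (j + 1)) =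
      |c| * ((j : ℝ) + 1) ^ d / (1 + ε) ^ j := by
    rw [pow_succ]
    push_cast
    field_simp
  rw [h6, div_lt_one hp] at hj2
  have h7 : c * ((j : ℝ) + 1) ^ d ≤ |c| * ((j : ℝ) + 1) ^ d := by
    gcongr
    exact le_abs_self c
  linarith

variable {V : Type*} [NormedAddCommGroup V] [InnerProductSpace ℂ V] [CompleteSpace V]
  [Nontrivial V]

/-- the growth of a finitely generated subgroup whose generators have small conjugacy classes -/
theorem card_closure (hL : IsLength L) (π : G →* unitary (V →L[ℂ] V)) {s C : ℝ} (hs : 0 < s)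
    (h : ∀ v w : V, ‖v‖ = 1 → ‖w‖ = 1 → ∀ F : Finset G,
      ∑ g ∈ F, ‖inner ℂ ((π g : V →L[ℂ] V) v) w‖ ^ 2 * (1 + (L g : ℝ)) ^ (-s) ≤ C)
    {T : Finset G} {n : ℕ} {k : G → ℕ} (hk : ∀ t ∈ T, ConjSize L t n ≤ ((n ^ k t : ℕ) : ℕ∞))
    {X : Finset G} (hX : ∀ x ∈ X, x ∈ Subgroup.closure (T : Set G) ∧ L x ≤ n) :
    (X.card : ℝ) ≤ (C * (1 + ((2 * n : ℕ) : ℝ)) ^ s) * (n : ℝ) ^ (∑ t ∈ T, k t) := by
  classical
  have hC := RepRD.nonneg h
  obtain ⟨D, hD⟩ : ∃ D : Subgroup G, D = Subgroup.closure (T : Set G) ⊓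
      Subgroup.centralizer (T : Set G) := ⟨_, rfl⟩
  have hDc : ∀ x ∈ D, ∀ y ∈ D, x * y = y * x := by
    intro x hx y hy
    rw [hD, Subgroup.mem_inf] at hx hy
    have h1 : y ∈ Subgroup.centralizer (Subgroup.closure (T : Set G) : Set G) := by
      rw [Subgroup.centralizer_closure]
      exact hy.2
    exact (Subgroup.mem_centralizer_iff.1 h1) x hx.1
  obtain ⟨Φ, hΦ⟩ : ∃ Φ : G → ((t : T) → G), Φ = fun x (t : T) => x * (t : G) * x⁻¹ := ⟨_, rfl⟩
  obtain ⟨M, hM⟩ : ∃ M : ℕ, M = ⌊C * (1 + ((2 * n : ℕ) : ℝ)) ^ s⌋₊ := ⟨_, rfl⟩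
  have hM0 : (M : ℝ) ≤ C * (1 + ((2 * n : ℕ) : ℝ)) ^ s := by
    rw [hM]
    exact Nat.floor_le (by positivity)
  have hfib : ∀ a ∈ X.image Φ, (X.filter fun x => Φ x = a).card ≤ M := by
    intro a ha
    rw [Finset.mem_image] at ha
    obtain ⟨x0, hx0, rfl⟩ := ha
    have h1 : ((X.filter fun x => Φ x = Φ x0).image fun x => x0⁻¹ * x).card =
        (X.filter fun x => Φ x = Φ x0).card :=
      Finset.card_image_of_injective _ fun a b hab => mul_left_cancel hab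
    rw [← h1, hM]
    apply Nat.le_floor
    refine abelian_card π hs h D hDc (2 * n) _ fun g hg => ?_
    rw [Finset.mem_image] at hg
    obtain ⟨x, hx, rfl⟩ := hg
    rw [Finset.mem_filter] at hx
    obtain ⟨hxX, hxΦ⟩ := hx
    constructor
    · rw [hD, Subgroup.mem_inf]
      constructor
      · exact Subgroup.mul_mem _ (Subgroup.inv_mem _ (hX x0 hx0).1) (hX x hxX).1
      · rw [Subgroup.mem_centralizer_iff]
        intro t ht
        have h2 : x * t * x⁻¹ = x0 * t * x0⁻¹ := by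
          have := congrFun hxΦ ⟨t, ht⟩
          rw [hΦ] at this
          exact this
        calc t * (x0⁻¹ * x) = x0⁻¹ * (x0 * t * x0⁻¹) * x := by group
          _ = x0⁻¹ * (x * t * x⁻¹) * x := by rw [h2]
          _ = _ := by group
    · refine (hL.mul _ _).trans ?_
      rw [hL.inv]
      have := (hX x0 hx0).2
      have := (hX x hxX).2
      omega
  have himg : (X.image Φ).card ≤ n ^ (∑ t ∈ T, k t) := by
    have h1 : X.image Φ ⊆ Fintype.piFinset fun t : T => X.image fun x => x * (t : G) * x⁻¹ := by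
      intro a ha
      rw [Finset.mem_image] at ha
      obtain ⟨x, hx, rfl⟩ := ha
      rw [Fintype.mem_piFinset]
      intro t
      rw [hΦ]
      exact Finset.mem_image_of_mem _ hx
    refine (Finset.card_le_card h1).trans ?_
    rw [Fintype.card_piFinset, ← Finset.prod_pow_eq_pow_sum, ← Finset.prod_coe_sort T]
    refine Finset.prod_le_prod' fun t _ => ?_
    have h2 : (((X.image fun x => x * (t : G) * x⁻¹) : Finset G) : Set G).encard ≤
        ConjSize L (t : G) n := by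
      refine Set.encard_le_encard ?_
      intro y hy
      rw [Finset.mem_coe, Finset.mem_image] at hy
      obtain ⟨x, hx, rfl⟩ := hy
      exact ⟨x, (hX x hx).2, rfl⟩
    rw [Set.encard_coe_eq_coe_finsetCard] at h2
    exact_mod_cast h2.trans (hk t t.2)
  have hcard := Finset.card_le_mul_card_image (f := Φ) X M hfib
  calc (X.card : ℝ) ≤ (M : ℝ) * ((X.image Φ).card : ℝ) := by exact_mod_cast hcard
    _ ≤ (C * (1 + ((2 * n : ℕ) : ℝ)) ^ s) * (n : ℝ) ^ (∑ t ∈ T, k t) := by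
        apply mul_le_mul hM0 _ (Nat.cast_nonneg _) (by positivity)
        exact_mod_cast himg

/-- **The subgroup is amenable.** -/
theorem pcSub_folner (hL : IsLength L) {π : G →* unitary (V →L[ℂ] V)} (hπ : RepRD L π)
    {l : Filter ℕ} [l.NeBot] (hl : l ≤ atTop) : IsFolner (pcSub L l) := by
  classical
  obtain ⟨s, hs, C, h⟩ := hπ
  have hC := RepRD.nonneg h
  intro T hT ε hε
  have hk : ∀ t, ∃ k : ℕ, t ∈ T → ∀ᶠ n in l, ConjSize L t n ≤ ((n ^ k : ℕ) : ℕ∞) := by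
    intro t
    by_cases ht : t ∈ T
    · obtain ⟨k, hk⟩ := hT t ht 1
      exact ⟨k, fun _ => by simpa using hk⟩
    · exact ⟨0, fun h => absurd h ht⟩
  choose k hk using hk
  have hall : ∀ᶠ n in l, ∀ t ∈ T, ConjSize L t n ≤ ((n ^ k t : ℕ) : ℕ∞) := by
    rw [Filter.eventually_all_finset]
    exact fun t ht => hk t ht
  obtain ⟨m, hm⟩ : ∃ m : ℕ, m = T.sup L + 1 := ⟨_, rfl⟩
  have hm0 : 0 < m := by omega
  obtain ⟨T', hT'⟩ : ∃ T' : Finset G, T' = insert 1 (T ∪ T.image fun t => t⁻¹) := ⟨_, rfl⟩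
  have h1T : (1 : G) ∈ T' := by rw [hT']; exact Finset.mem_insert_self _ _
  have hT'm : ∀ x ∈ T', x ∈ Subgroup.closure (T : Set G) ∧ L x ≤ m := by
    intro x hx
    rw [hT', Finset.mem_insert, Finset.mem_union, Finset.mem_image] at hx
    rcases hx with rfl | hx | ⟨t, ht, rfl⟩
    · exact ⟨Subgroup.one_mem _, by rw [hL.one]; omega⟩
    · refine ⟨Subgroup.subset_closure hx, ?_⟩
      have := Finset.le_sup (f := L) hx
      omega
    · refine ⟨Subgroup.inv_mem _ (Subgroup.subset_closure ht), ?_⟩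
      rw [hL.inv]
      have := Finset.le_sup (f := L) ht
      omega
  have hpow : ∀ j : ℕ, ∀ x ∈ T' ^ j, x ∈ Subgroup.closure (T : Set G) ∧ L x ≤ j * m := by
    intro j
    induction j with
    | zero =>
      intro x hx
      rw [pow_zero, Finset.mem_one] at hx
      subst hx
      exact ⟨Subgroup.one_mem _, by rw [hL.one]; omega⟩
    | succ j ih =>
      intro x hx
      rw [pow_succ, Finset.mem_mul] at hx
      obtain ⟨a, ha, b, hb, rfl⟩ := hx
      refine ⟨Subgroup.mul_mem _ (ih a ha).1 (hT'm b hb).1, ?_⟩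
      have h2 := (ih a ha).2
      have h3 := (hT'm b hb).2
      have h4 := hL.mul a b
      rw [Nat.succ_mul]
      omega
  obtain ⟨e, he⟩ : ∃ e : ℕ, e = ∑ t ∈ T, k t := ⟨_, rfl⟩
  obtain ⟨q, hq⟩ := exists_nat_ge s
  have hfreq : ∃ᶠ j : ℕ in atTop, ((T' ^ j).card : ℝ) ≤
      (C * (3 * m) ^ q * m ^ e) * ((j : ℝ) + 1) ^ (q + e) := by
    have htend : Tendsto (fun n : ℕ => n / m) l atTop :=
      (Nat.tendsto_div_const_atTop hm0.ne').mono_left hl
    refine htend.frequently (Eventually.frequently ?_)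
    filter_upwards [hall] with n hn
    obtain ⟨j, hj⟩ : ∃ j, j = n / m := ⟨_, rfl⟩
    rw [← hj]
    have hjn : j * m ≤ n := by rw [hj]; exact Nat.div_mul_le_self n m
    have hnj : n < (j + 1) * m := by
      rw [hj]
      have := Nat.lt_div_mul_add (a := n) hm0
      rw [add_mul, one_mul]
      exact this
    have h1 := card_closure hL π hs h hn (X := T' ^ j) fun x hx =>
      ⟨(hpow j x hx).1, (hpow j x hx).2.trans hjn⟩
    rw [← he] at h1
    refine h1.trans ?_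
    have hnr : (n : ℝ) ≤ ((j : ℝ) + 1) * m := by exact_mod_cast hnj.le
    have hj1 : (1 : ℝ) ≤ ((j : ℝ) + 1) * m := by
      have : (1 : ℝ) ≤ m := by exact_mod_cast hm0
      nlinarith [(Nat.cast_nonneg j : (0 : ℝ) ≤ j)]
    have h2 : (1 + ((2 * n : ℕ) : ℝ)) ^ s ≤ ((3 * m) * ((j : ℝ) + 1)) ^ q := by
      rw [← Real.rpow_natCast]
      have h3 : 1 + ((2 * n : ℕ) : ℝ) ≤ (3 * m) * ((j : ℝ) + 1) := by
        push_cast
        linarith
      have h4 : (1 : ℝ) ≤ 1 + ((2 * n : ℕ) : ℝ) := by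
        have : (0 : ℝ) ≤ ((2 * n : ℕ) : ℝ) := Nat.cast_nonneg _
        linarith
      calc (1 + ((2 * n : ℕ) : ℝ)) ^ s ≤ (1 + ((2 * n : ℕ) : ℝ)) ^ (q : ℝ) :=
            Real.rpow_le_rpow_of_exponent_le h4 hq
        _ ≤ _ := Real.rpow_le_rpow (by linarith) h3 (by positivity)
    calc C * (1 + ((2 * n : ℕ) : ℝ)) ^ s * (n : ℝ) ^ e
        ≤ C * ((3 * m) * ((j : ℝ) + 1)) ^ q * (((j : ℝ) + 1) * m) ^ e := by gcongr
      _ = _ := by
          rw [mul_pow ((3 : ℝ) * m) ((j : ℝ) + 1) q, mul_pow ((j : ℝ) + 1) (m : ℝ) e, pow_add]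
          ring
  obtain ⟨j, hj⟩ := slow_step hfreq hε
  refine ⟨T' ^ j, ?_, ?_, ?_⟩
  · exact ⟨1, Finset.one_mem_pow h1T⟩
  · intro x hx
    have h2 : Subgroup.closure (T : Set G) ≤ pcSub L l := by
      rw [Subgroup.closure_le]
      exact fun t ht => hT t ht
    exact h2 (hpow j x hx).1
  · intro t ht
    have hsub : T' ^ j ⊆ T' ^ (j + 1) := by
      intro x hx
      rw [pow_succ, Finset.mem_mul]
      exact ⟨x, hx, 1, h1T, mul_one x⟩
    have hfin : ({x : G | x ∈ T' ^ j ∧ t * x ∉ T' ^ j}).ncard ≤ (T' ^ (j + 1) \ T' ^ j).card := by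
      rw [← Set.ncard_coe_finset]
      refine Set.ncard_le_ncard_of_injOn (fun x => t * x) ?_ ?_ (Finset.finite_toSet _)
      · rintro x ⟨hx1, hx2⟩
        rw [Finset.mem_coe, Finset.mem_sdiff]
        refine ⟨?_, hx2⟩
        rw [pow_succ', Finset.mem_mul]
        refine ⟨t, ?_, x, hx1, rfl⟩
        rw [hT']
        exact Finset.mem_insert_of_mem (Finset.mem_union_left _ ht)
      · intro a _ b _ hab
        exact mul_left_cancel hab
    have h2 : ((T' ^ (j + 1) \ T' ^ j).card : ℝ) = (T' ^ (j + 1)).card - (T' ^ j).card := by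
      rw [Finset.card_sdiff_of_subset hsub, Nat.cast_sub (Finset.card_le_card hsub)]
    have h3 : (({x : G | x ∈ T' ^ j ∧ t * x ∉ T' ^ j}).ncard : ℝ) ≤
        ((T' ^ (j + 1) \ T' ^ j).card : ℝ) := by exact_mod_cast hfin
    linarith

/-- If the conjugacy growth is not superpolynomial along `A0`, there is a nontrivial subgroup. -/
theorem exists_pcSub {A0 : Set ℕ} (hA0 : A0.Infinite)
    (hnot : ¬ ∀ F : Finset G, (∀ h ∈ F, h ≠ 1) → ∀ k : ℕ, ∃ c : ℕ, ∀ n0 : ℕ, ∃ n : ℕ, n0 ≤ n ∧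
      n ∈ A0 ∧ ∀ h ∈ F, ((n ^ k : ℕ) : ℕ∞) ≤ ConjSize L h (c * n)) :
    ∃ A : Set ℕ, A ⊆ A0 ∧ A.Infinite ∧ pcSub L (atTop ⊓ 𝓟 A) ≠ ⊥ := by
  classical
  push Not at hnot
  obtain ⟨F, hF, k, hk⟩ := hnot
  -- for every `c` a radius in `A0`, beyond `c`
  have h1 : ∀ c : ℕ, ∃ n : ℕ, c ≤ n ∧ n ∈ A0 ∧ ∃ h ∈ F, ConjSize L h (c * n) < ((n ^ k : ℕ) : ℕ∞) := by
    intro c
    obtain ⟨n0, hn0⟩ := hk c
    obtain ⟨n, hn1, hn2⟩ := hA0.exists_gt (max c n0)
    have h3 : c ≤ n := (le_max_left c n0).trans hn2.le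
    have h4 : n0 ≤ n := (le_max_right c n0).trans hn2.le
    exact ⟨n, h3, hn1, hn0 n h4 hn1⟩
  choose n hn1 hn2 g hg hgn using h1
  -- infinitely many `c` with the same element
  have h2 : ∃ h ∈ F, ∃ᶠ c : ℕ in atTop, g c = h := by
    by_contra hcon
    push Not at hcon
    have h3 : ∀ᶠ c : ℕ in atTop, ∀ h ∈ F, ¬ g c = h := by
      rw [Filter.eventually_all_finset]
      intro h hh
      have := hcon h hh
      simpa [Filter.not_frequently] using this
    obtain ⟨c, hc⟩ := h3.exists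
    exact hc (g c) (hg c) rfl
  obtain ⟨h, hh, hfr⟩ := h2
  obtain ⟨A, hA⟩ : ∃ A : Set ℕ, A = {m | ∃ c, g c = h ∧ n c = m} := ⟨_, rfl⟩
  refine ⟨A, ?_, ?_, ?_⟩
  · rw [hA]
    rintro m ⟨c, -, rfl⟩
    exact hn2 c
  · have hfreq : ∃ᶠ m : ℕ in atTop, m ∈ A := by
      rw [Filter.frequently_atTop]
      intro b
      obtain ⟨c, hc1, hc2⟩ := (Filter.frequently_atTop.1 hfr) b
      refine ⟨n c, hc1.trans (hn1 c), ?_⟩
      rw [hA]
      exact ⟨c, hc2, rfl⟩
    exact Nat.frequently_atTop_iff_infinite.1 hfreq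
  · intro hbot
    have hmem : h ∈ pcSub L (atTop ⊓ 𝓟 A) := by
      intro C
      refine ⟨k, ?_⟩
      have h2 : ∀ᶠ m in atTop ⊓ 𝓟 A, m ∈ A := by
        apply Filter.mem_inf_of_right
        exact Filter.mem_principal_self A
      have h3 : ∀ᶠ m in atTop ⊓ 𝓟 A, (Finset.range C).sup n + 1 ≤ m :=
        (eventually_ge_atTop _).filter_mono inf_le_left
      filter_upwards [h2, h3] with m hm1 hm2
      rw [hA] at hm1
      obtain ⟨c, hc1, rfl⟩ := hm1
      have hcC : C ≤ c := by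
        by_contra hlt
        push Not at hlt
        have := Finset.le_sup (f := n) (Finset.mem_range.2 hlt)
        omega
      have h5 := hgn c
      rw [hc1] at h5
      exact (conjSize_mono h (Nat.mul_le_mul_right _ hcC)).trans h5.le
    rw [hbot, Subgroup.mem_bot] at hmem
    exact hF h hh hmem

/-- `∀ᶠ` along an infinite set, for bounds by powers -/
theorem pow_of_eventually {A : Set ℕ} {φ : ℕ → ℕ∞} {k : ℕ}
    (h : ∀ᶠ n in atTop ⊓ 𝓟 A, φ n ≤ ((n ^ k : ℕ) : ℕ∞)) :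
    ∃ k : ℕ, ∀ n ∈ A, k ≤ n → φ n ≤ ((n ^ k : ℕ) : ℕ∞) := by
  rw [Filter.eventually_inf_principal, Filter.eventually_atTop] at h
  obtain ⟨n0, h⟩ := h
  refine ⟨max (max k n0) 1, fun n hn hle => ?_⟩
  have h1 : k ≤ max (max k n0) 1 := (le_max_left _ _).trans (le_max_left _ _)
  have h2 : n0 ≤ n := ((le_max_right _ _).trans (le_max_left _ _)).trans hle
  have h3 : 1 ≤ n := (le_max_right _ _).trans hle
  refine (h n h2 hn).trans ?_
  exact_mod_cast Nat.pow_le_pow_right h3 h1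

/-- **The subgroup is small.** -/
theorem pcSub_small (hL : IsLength L) {π : G →* unitary (V →L[ℂ] V)} (hπ : RepRD L π)
    {A : Set ℕ} (hA : A.Infinite) : IsSmall L A (pcSub L (atTop ⊓ 𝓟 A)) := by
  have hne : (atTop ⊓ 𝓟 A : Filter ℕ).NeBot := by
    rw [← Filter.frequently_mem_iff_neBot]
    exact Nat.frequently_atTop_iff_infinite.2 hA
  refine ⟨pcSub_folner hL hπ inf_le_left, fun h hh => ?_, fun T hT => ?_⟩
  · obtain ⟨k, hk⟩ := hh 1
    refine pow_of_eventually (k := k) ?_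
    filter_upwards [hk] with n hn
    rwa [one_mul] at hn
  · obtain ⟨s, hs, C, h⟩ := hπ
    have hC := RepRD.nonneg h
    have hk : ∀ t, ∃ k : ℕ, t ∈ T → ∀ᶠ n in atTop ⊓ 𝓟 A, ConjSize L t n ≤ ((n ^ k : ℕ) : ℕ∞) := by
      intro t
      by_cases ht : t ∈ T
      · obtain ⟨k, hk⟩ := hT t ht 1
        exact ⟨k, fun _ => by simpa using hk⟩
      · exact ⟨0, fun h => absurd h ht⟩
    choose k hk using hk
    have hall : ∀ᶠ n in atTop ⊓ 𝓟 A, ∀ t ∈ T, ConjSize L t n ≤ ((n ^ k t : ℕ) : ℕ∞) := by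
      rw [Filter.eventually_all_finset]
      exact fun t ht => hk t ht
    obtain ⟨e, he⟩ : ∃ e : ℕ, e = ∑ t ∈ T, k t := ⟨_, rfl⟩
    obtain ⟨q, hq⟩ := exists_nat_ge s
    obtain ⟨M, hM⟩ := exists_nat_ge (C * 3 ^ q)
    refine pow_of_eventually (k := 1 + q + e) ?_
    have h0 : ∀ᶠ n in atTop ⊓ 𝓟 A, M + 1 ≤ n := (eventually_ge_atTop _).filter_mono inf_le_left
    filter_upwards [hall, h0] with n hn hn0
    by_contra hcon
    push Not at hcon
    have h1 : ((n ^ (1 + q + e) + 1 : ℕ) : ℕ∞) ≤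
        {g : G | g ∈ Subgroup.closure (T : Set G) ∧ L g ≤ n}.encard := by
      push_cast
      exact Order.add_one_le_of_lt hcon
    obtain ⟨X, hX1, hX2⟩ := Set.exists_subset_encard_eq h1
    have hXf : X.Finite := Set.finite_of_encard_eq_coe hX2
    have h2 := card_closure hL π hs h hn (X := hXf.toFinset) fun x hx =>
      hX1 (hXf.mem_toFinset.1 hx)
    rw [← he] at h2
    have h3 : hXf.toFinset.card = n ^ (1 + q + e) + 1 := by
      have := hXf.encard_eq_coe_toFinset_card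
      rw [hX2] at this
      exact_mod_cast this.symm
    rw [h3] at h2
    have hn1 : (1 : ℝ) ≤ n := by
      have : 1 ≤ n := by omega
      exact_mod_cast this
    have hnM : (M : ℝ) + 1 ≤ n := by exact_mod_cast hn0
    have h4 : (1 + ((2 * n : ℕ) : ℝ)) ^ s ≤ 3 ^ q * (n : ℝ) ^ q := by
      rw [← mul_pow, ← Real.rpow_natCast]
      have h5 : 1 + ((2 * n : ℕ) : ℝ) ≤ 3 * n := by
        push_cast
        linarith
      have h6 : (1 : ℝ) ≤ 1 + ((2 * n : ℕ) : ℝ) := by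
        have : (0 : ℝ) ≤ ((2 * n : ℕ) : ℝ) := Nat.cast_nonneg _
        linarith
      calc (1 + ((2 * n : ℕ) : ℝ)) ^ s ≤ (1 + ((2 * n : ℕ) : ℝ)) ^ (q : ℝ) :=
            Real.rpow_le_rpow_of_exponent_le h6 hq
        _ ≤ _ := Real.rpow_le_rpow (by linarith) h5 (by positivity)
    have h7 : C * (1 + ((2 * n : ℕ) : ℝ)) ^ s * (n : ℝ) ^ e ≤ (n : ℝ) ^ (1 + q + e) := by
      calc C * (1 + ((2 * n : ℕ) : ℝ)) ^ s * (n : ℝ) ^ e
          ≤ C * (3 ^ q * (n : ℝ) ^ q) * (n : ℝ) ^ e := by gcongr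
        _ = (C * 3 ^ q) * (n : ℝ) ^ q * (n : ℝ) ^ e := by ring
        _ ≤ (n : ℝ) * (n : ℝ) ^ q * (n : ℝ) ^ e := by
            gcongr
            linarith
        _ = _ := by rw [pow_add, pow_add, pow_one]
    rw [Nat.cast_add, Nat.cast_pow, Nat.cast_one] at h2
    linarith

/-- **Main theorem.** -/
theorem groupRD_of_small (hL : IsLength L) {π : G →* unitary (V →L[ℂ] V)} (hπ : RepRD L π)
    {A0 : Set ℕ} (hA0 : A0.Infinite)
    (hrad : ∀ A ⊆ A0, A.Infinite → ∀ N : Subgroup G, N.Normal → IsSmall L A N → N = ⊥) :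
    GroupRD L := by
  by_cases hS : ∀ F : Finset G, (∀ h ∈ F, h ≠ 1) → ∀ k : ℕ, ∃ c : ℕ, ∀ n0 : ℕ, ∃ n : ℕ, n0 ≤ n ∧
      n ∈ A0 ∧ ∀ h ∈ F, ((n ^ k : ℕ) : ℕ∞) ≤ ConjSize L h (c * n)
  · refine groupRD_of_trace hL hπ (trace_le hL (fun F hF k => ?_) π hπ)
    obtain ⟨c, hc⟩ := hS F hF k
    refine ⟨c, fun n0 => ?_⟩
    obtain ⟨n, h1, -, h2⟩ := hc n0
    exact ⟨n, h1, h2⟩
  · obtain ⟨A, hA1, hA2, hA3⟩ := exists_pcSub hA0 hS
    exact absurd (hrad A hA1 hA2 _ (pcSub_normal hL inf_le_left) (pcSub_small hL hπ hA2)) hA3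

end Pool.Agent.helper72.RDC
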