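import Pool.Agent.helper72.RDC.Weak

/-!
# Property RD from a subgroup of polynomial index
-/

namespace Pool.Agent.helper72.RDC

open Pool.Agent.helper91.RDR
open scoped InnerProductSpace
open Filter Topology

variable {G : Type*} [Group G] {L : G → ℕ}

theorem sec_mem (H : Subgroup G) (r : G) (ξ : lp (fun _ : G => ℂ) 2) :
    Memℓp (E := fun _ : H => ℂ) (fun h : H => ξ ((h : G) * r)) 2 := by
  have h := lp.memℓp ξ
  rw [memℓp_gen_iff (by norm_num)] at h ⊢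
  refine h.comp_injective (i := fun h : H => (h : G) * r) ?_
  intro a b hab
  exact Subtype.ext (mul_right_cancel hab)

/-- `ξ` on the right coset `H r` -/
noncomputable def sec (H : Subgroup G) (r : G) (ξ : lp (fun _ : G => ℂ) 2) :
    lp (fun _ : H => ℂ) 2 :=
  ⟨fun h => ξ ((h : G) * r), sec_mem H r ξ⟩

theorem sec_apply (H : Subgroup G) (r : G) (ξ : lp (fun _ : G => ℂ) 2) (h : H) :
    sec H r ξ h = ξ ((h : G) * r) := rfl

theorem norm_sq_lp {ι : Type*} (ξ : lp (fun _ : ι => ℂ) 2) :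
    Summable (fun x => ‖ξ x‖ ^ 2) ∧ ‖ξ‖ ^ 2 = ∑' x, ‖ξ x‖ ^ 2 := by
  have e : (2 : ENNReal).toReal = ((2 : ℕ) : ℝ) := by norm_num
  constructor
  · have h := lp.memℓp ξ
    rw [memℓp_gen_iff (by norm_num)] at h
    rw [e] at h
    simpa using h
  · have h1 := lp.norm_rpow_eq_tsum (p := 2) (by norm_num) ξ
    rw [e] at h1
    simpa using h1

theorem sum_sec_le (H : Subgroup G) (ξ : lp (fun _ : G => ℂ) 2) (X : Finset G)
    (hX : ∀ x ∈ X, ∀ y ∈ X, x * y⁻¹ ∈ H → x = y) :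
    ∑ r ∈ X, ‖sec H r ξ‖ ^ 2 ≤ ‖ξ‖ ^ 2 := by
  obtain ⟨hs, hn⟩ := norm_sq_lp ξ
  have h1 : ∀ r, ‖sec H r ξ‖ ^ 2 = ∑' h : H, ‖ξ ((h : G) * r)‖ ^ 2 := fun r =>
    (norm_sq_lp (sec H r ξ)).2
  have hinj : Function.Injective fun q : X × H => (q.2 : G) * (q.1 : G) := by
    rintro ⟨⟨x, hx⟩, a⟩ ⟨⟨y, hy⟩, b⟩ h
    have h2 : (a : G) * x = (b : G) * y := h
    have h3 : x * y⁻¹ ∈ H := by
      have : x * y⁻¹ = (a : G)⁻¹ * (b : G) := by
        rw [eq_inv_mul_iff_mul_eq, ← mul_assoc, h2]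
        group
      rw [this]
      exact H.mul_mem (H.inv_mem a.2) b.2
    have h4 := hX x hx y hy h3
    subst h4
    have h5 : (a : G) = b := mul_right_cancel h2
    rw [Subtype.ext h5]
  have hs2 : Summable fun q : X × H => ‖ξ ((q.2 : G) * (q.1 : G))‖ ^ 2 := hs.comp_injective hinj
  rw [Finset.sum_congr rfl fun r _ => h1 r, ← Finset.sum_coe_sort, hn]
  have h6 : ∑' q : X × H, ‖ξ ((q.2 : G) * (q.1 : G))‖ ^ 2 =
      ∑ r : X, ∑' h : H, ‖ξ ((h : G) * (r : G))‖ ^ 2 := by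
    rw [hs2.tsum_prod]
    exact tsum_fintype _
  rw [← h6]
  exact hs2.tsum_le_tsum_of_inj _ hinj (fun _ _ => by positivity) (fun _ => le_rfl) hs

/-- the convolution by a function on the subgroup -/
theorem lam_sub_le (H : Subgroup G) {φ : H →₀ ℂ} {K : ℝ} (hK : 0 ≤ K)
    (h : ∀ ξ : lp (fun _ : H => ℂ) 2, ‖(φ.sum fun g c => c • lam g) ξ‖ ≤ K * ‖ξ‖)
    (ξ : lp (fun _ : G => ℂ) 2) :
    ‖(φ.sum fun g c => c • lam (g : G)) ξ‖ ≤ K * ‖ξ‖ := by
  classical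
  obtain ⟨T, hT⟩ : ∃ T, T = (φ.sum fun g c => c • lam (g : G)) ξ := ⟨_, rfl⟩
  rw [← hT]
  have hTx : ∀ x, T x = ∑ g ∈ φ.support, φ g * ξ ((g : G)⁻¹ * x) := by
    intro x
    rw [hT, Finsupp.sum, sum_apply, lp.coeFn_sum, Finset.sum_apply]
    rfl
  have hsec : ∀ r, sec H r T = (φ.sum fun g c => c • lam g) (sec H r ξ) := by
    intro r
    ext x
    rw [sec_apply, hTx, Finsupp.sum, sum_apply, lp.coeFn_sum, Finset.sum_apply]
    refine Finset.sum_congr rfl fun g _ => ?_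
    show _ = φ g * sec H r ξ (g⁻¹ * x)
    rw [sec_apply]
    push_cast
    rw [mul_assoc]
  have e : (2 : ENNReal).toReal = ((2 : ℕ) : ℝ) := by norm_num
  refine lp.norm_le_of_forall_sum_le (p := 2) (by norm_num) (by positivity) ?_
  intro X
  rw [e]
  simp only [Real.rpow_natCast]
  -- representatives of the right cosets
  obtain ⟨rp, hrp⟩ : ∃ rp : G → G, (∀ x, x * (rp x)⁻¹ ∈ H) ∧
      ∀ x y, x * y⁻¹ ∈ H → rp x = rp y := by
    refine ⟨fun x => (Quotient.mk (QuotientGroup.rightRel H) x).out, fun x => ?_, fun x y hxy => ?_⟩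
    · have h1 : Quotient.mk (QuotientGroup.rightRel H) ((Quotient.mk (QuotientGroup.rightRel H) x).out)
        = Quotient.mk (QuotientGroup.rightRel H) x := Quotient.out_eq _
      have h2 := Quotient.exact h1
      rw [← QuotientGroup.rightRel_apply]
      exact h2
    · have h1 : Quotient.mk (QuotientGroup.rightRel H) x = Quotient.mk (QuotientGroup.rightRel H) y := by
        apply Quotient.sound
        show QuotientGroup.rightRel H x y
        rw [QuotientGroup.rightRel_apply]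
        have := H.inv_mem hxy
        rwa [mul_inv_rev, inv_inv] at this
      show (Quotient.mk (QuotientGroup.rightRel H) x).out = (Quotient.mk (QuotientGroup.rightRel H) y).out
      rw [h1]
  obtain ⟨h1, h2⟩ := hrp
  have hXr : ∀ x ∈ X.image rp, ∀ y ∈ X.image rp, x * y⁻¹ ∈ H → x = y := by
    intro x hx y hy hxy
    rw [Finset.mem_image] at hx hy
    obtain ⟨a, -, rfl⟩ := hx
    obtain ⟨b, -, rfl⟩ := hy
    apply h2
    have : a * b⁻¹ = (a * (rp a)⁻¹) * (rp a * (rp b)⁻¹) * (b * (rp b)⁻¹)⁻¹ := by group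
    rw [this]
    exact H.mul_mem (H.mul_mem (h1 a) hxy) (H.inv_mem (h1 b))
  have h3 : ∑ x ∈ X, ‖T x‖ ^ 2 = ∑ r ∈ X.image rp, ∑ x ∈ X with rp x = r, ‖T x‖ ^ 2 :=
    (Finset.sum_fiberwise_of_maps_to (fun x hx => Finset.mem_image_of_mem rp hx) _).symm
  have h4 : ∀ r ∈ X.image rp, ∑ x ∈ X with rp x = r, ‖T x‖ ^ 2 ≤ ‖sec H r T‖ ^ 2 := by
    intro r _
    obtain ⟨hs, hn⟩ := norm_sq_lp (sec H r T)
    rw [hn]
    obtain ⟨Y, hY⟩ : ∃ Y : Finset H, Y = (X.filter fun x => rp x = r).attach.image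
        fun x => ⟨(x : G) * r⁻¹, by
          have h6 := h1 (x : G)
          rwa [(Finset.mem_filter.1 x.2).2] at h6⟩ := ⟨_, rfl⟩
    have h5 : ∑ x ∈ X with rp x = r, ‖T x‖ ^ 2 = ∑ y ∈ Y, ‖sec H r T y‖ ^ 2 := by
      rw [hY, Finset.sum_image]
      · rw [← Finset.sum_attach]
        refine Finset.sum_congr rfl fun x _ => ?_
        rw [sec_apply]
        simp
      · intro a _ b _ hab
        have := congrArg Subtype.val hab
        exact Subtype.ext (mul_right_cancel this)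
    rw [h5]
    exact hs.sum_le_tsum _ fun _ _ => by positivity
  calc ∑ x ∈ X, ‖T x‖ ^ 2 ≤ ∑ r ∈ X.image rp, ‖sec H r T‖ ^ 2 := by
        rw [h3]
        exact Finset.sum_le_sum h4
    _ ≤ ∑ r ∈ X.image rp, K ^ 2 * ‖sec H r ξ‖ ^ 2 := by
        refine Finset.sum_le_sum fun r _ => ?_
        rw [hsec, ← mul_pow]
        exact pow_le_pow_left₀ (norm_nonneg _) (h _) 2
    _ = K ^ 2 * ∑ r ∈ X.image rp, ‖sec H r ξ‖ ^ 2 := by rw [Finset.mul_sum]
    _ ≤ K ^ 2 * ‖ξ‖ ^ 2 := mul_le_mul_of_nonneg_left (sum_sec_le H ξ _ hXr) (by positivity)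
    _ = (K * ‖ξ‖) ^ 2 := by ring

theorem sum_inv_sq (N : ℕ) : ∑ n ∈ Finset.range N, (((n : ℝ) + 1) ^ 2)⁻¹ ≤ 2 - 2 / ((N : ℝ) + 1) := by
  induction N with
  | zero => norm_num
  | succ N ih =>
    rw [Finset.sum_range_succ]
    have h1 : (((N : ℝ) + 1) ^ 2)⁻¹ ≤ 2 / ((N : ℝ) + 1) - 2 / (((N + 1 : ℕ) : ℝ) + 1) := by
      push_cast
      have hN : (0 : ℝ) ≤ N := Nat.cast_nonneg N
      rw [div_sub_div _ _ (by positivity) (by positivity), inv_eq_one_div,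
        div_le_div_iff₀ (by positivity) (by positivity)]
      nlinarith
    linarith

/-- the weights of the cosets are summable -/
theorem sum_weights {H : Subgroup G} {C0 d : ℕ}
    (hI : ∀ n : ℕ, {c : G ⧸ H | ∃ g : G, L g ≤ n ∧ (g : G ⧸ H) = c}.encard ≤
      ((C0 * (n + 1) ^ d : ℕ) : ℕ∞)) (t : G ⧸ H → G) (ht : ∀ c, (t c : G ⧸ H) = c)
    (P : Finset (G ⧸ H)) :
    ∑ c ∈ P, (((L (t c) : ℝ) + 1) ^ (d + 2))⁻¹ ≤ 2 * C0 := by
  classical
  have h1 : ∑ c ∈ P, (((L (t c) : ℝ) + 1) ^ (d + 2))⁻¹ =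
      ∑ n ∈ Finset.range (P.sup (fun c => L (t c)) + 1), ∑ c ∈ P with L (t c) = n,
        (((L (t c) : ℝ) + 1) ^ (d + 2))⁻¹ := by
    refine (Finset.sum_fiberwise_of_maps_to (fun c hc => ?_) _).symm
    rw [Finset.mem_range, Nat.lt_succ_iff]
    exact Finset.le_sup (f := fun c => L (t c)) hc
  rw [h1]
  have h2 : ∀ n : ℕ, ∑ c ∈ P with L (t c) = n, (((L (t c) : ℝ) + 1) ^ (d + 2))⁻¹ ≤
      C0 * (((n : ℝ) + 1) ^ 2)⁻¹ := by
    intro n
    have h3 : ∑ c ∈ P with L (t c) = n, (((L (t c) : ℝ) + 1) ^ (d + 2))⁻¹ =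
        ((P.filter fun c => L (t c) = n).card : ℝ) * (((n : ℝ) + 1) ^ (d + 2))⁻¹ := by
      rw [← nsmul_eq_mul, ← Finset.sum_const]
      refine Finset.sum_congr rfl fun c hc => ?_
      rw [(Finset.mem_filter.1 hc).2]
    have h4 : (P.filter fun c => L (t c) = n).card ≤ C0 * (n + 1) ^ d := by
      have h5 : (((P.filter fun c => L (t c) = n) : Finset (G ⧸ H)) : Set (G ⧸ H)).encard ≤
          ((C0 * (n + 1) ^ d : ℕ) : ℕ∞) := by
        refine le_trans (Set.encard_le_encard ?_) (hI n)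
        intro c hc
        rw [Finset.mem_coe, Finset.mem_filter] at hc
        exact ⟨t c, hc.2.le, ht c⟩
      rw [Set.encard_coe_eq_coe_finsetCard] at h5
      exact_mod_cast h5
    have h5 : ((P.filter fun c => L (t c) = n).card : ℝ) ≤ C0 * ((n : ℝ) + 1) ^ d := by
      exact_mod_cast h4
    rw [h3]
    have hn : (0 : ℝ) < (n : ℝ) + 1 := by positivity
    calc ((P.filter fun c => L (t c) = n).card : ℝ) * (((n : ℝ) + 1) ^ (d + 2))⁻¹
        ≤ (C0 * ((n : ℝ) + 1) ^ d) * (((n : ℝ) + 1) ^ (d + 2))⁻¹ := by gcongr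
      _ = C0 * (((n : ℝ) + 1) ^ 2)⁻¹ := by
          rw [pow_add]
          field_simp
  calc _ ≤ ∑ n ∈ Finset.range (P.sup (fun c => L (t c)) + 1), (C0 : ℝ) * (((n : ℝ) + 1) ^ 2)⁻¹ :=
        Finset.sum_le_sum fun n _ => h2 n
    _ = (C0 : ℝ) * ∑ n ∈ Finset.range (P.sup (fun c => L (t c)) + 1), (((n : ℝ) + 1) ^ 2)⁻¹ := by
        rw [Finset.mul_sum]
    _ ≤ (C0 : ℝ) * 2 := by
        have h3 := sum_inv_sq (P.sup (fun c => L (t c)) + 1)
        have h4 : 0 ≤ 2 / (((P.sup (fun c => L (t c)) + 1 : ℕ) : ℝ) + 1) := by positivity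
        gcongr
        linarith
    _ = 2 * C0 := by ring

/-- `f` on the coset `t H` -/
theorem coset_bij {H : Subgroup G} {c : G ⧸ H} {t : G} (ht : (t : G ⧸ H) = c) (f : G →₀ ℂ)
    [DecidablePred fun g : G => (g : G ⧸ H) = c] :
    Set.BijOn (fun h : H => t * (h : G))
      ((fun h : H => t * (h : G)) ⁻¹' ((f.filter fun g : G => (g : G ⧸ H) = c).support : Set G))
      ((f.filter fun g : G => (g : G ⧸ H) = c).support : Set G) := by
  refine ⟨fun h hh => hh, ?_, ?_⟩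
  · intro a _ b _ hab
    exact Subtype.ext (mul_left_cancel hab)
  · intro g hg
    have h1 : (g : G ⧸ H) = c := by
      have h2 := Finset.mem_coe.1 hg
      rw [Finsupp.support_filter, Finset.mem_filter] at h2
      exact h2.2
    have h2 : t⁻¹ * g ∈ H := by
      rw [← QuotientGroup.eq, ht, h1]
    refine ⟨⟨t⁻¹ * g, h2⟩, ?_, ?_⟩
    · show t * (t⁻¹ * g) ∈ ((f.filter fun g : G => (g : G ⧸ H) = c).support : Set G)
      rw [mul_inv_cancel_left]
      exact hg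
    · show t * (t⁻¹ * g) = g
      rw [mul_inv_cancel_left]

/-- `f` on the coset `t H`, as a function on `H` -/
noncomputable def cpart {H : Subgroup G} {c : G ⧸ H} {t : G} (ht : (t : G ⧸ H) = c) (f : G →₀ ℂ)
    [DecidablePred fun g : G => (g : G ⧸ H) = c] : H →₀ ℂ :=
  Finsupp.comapDomain (fun h : H => t * (h : G)) (f.filter fun g : G => (g : G ⧸ H) = c)
    (coset_bij ht f).injOn

theorem cpart_sum {H : Subgroup G} {c : G ⧸ H} {t : G} (ht : (t : G ⧸ H) = c) (f : G →₀ ℂ)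
    [DecidablePred fun g : G => (g : G ⧸ H) = c] {M : Type*} [AddCommMonoid M]
    (F : G → ℂ → M) :
    (cpart ht f).sum (fun h a => F (t * (h : G)) a) =
      ∑ g ∈ f.support.filter (fun g : G => (g : G ⧸ H) = c), F g (f g) := by
  have h1 := Finsupp.sum_comapDomain (fun h : H => t * (h : G))
    (f.filter fun g : G => (g : G ⧸ H) = c) F (coset_bij ht f)
  refine h1.trans ?_
  rw [Finsupp.sum, Finsupp.support_filter]
  refine Finset.sum_congr rfl fun g hg => ?_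
  rw [Finsupp.filter_apply_pos (p := fun g : G => (g : G ⧸ H) = c) f (Finset.mem_filter.1 hg).2]

/-- **Property RD from a subgroup of polynomial index.** -/
theorem groupRD_of_index (hL : IsLength L) (H : Subgroup G)
    (hH : GroupRD fun h : H => L (h : G)) {C0 d : ℕ}
    (hI : ∀ n : ℕ, {c : G ⧸ H | ∃ g : G, L g ≤ n ∧ (g : G ⧸ H) = c}.encard ≤
      ((C0 * (n + 1) ^ d : ℕ) : ℕ∞)) : GroupRD L := by
  classical
  obtain ⟨C, s, hC, hs, hRD⟩ := hH
  have hmin : ∀ c : G ⧸ H, ∃ t : G, (t : G ⧸ H) = c ∧ ∀ g : G, (g : G ⧸ H) = c → L t ≤ L g := by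
    intro c
    have hne : ∃ n, ∃ g : G, (g : G ⧸ H) = c ∧ L g = n :=
      ⟨_, _, QuotientGroup.out_eq' c, rfl⟩
    obtain ⟨t, ht1, ht2⟩ := Nat.find_spec hne
    refine ⟨t, ht1, fun g hg => ?_⟩
    rw [ht2]
    exact Nat.find_min' hne ⟨g, hg, rfl⟩
  choose t ht1 ht2 using hmin
  have hsub : ∀ φ : H →₀ ℂ, ∀ ξ : lp (fun _ : G => ℂ) 2,
      ‖(φ.sum fun g c => c • lam (g : G)) ξ‖ ≤
        (C * Real.sqrt (φ.sum fun g c => ‖c‖ ^ 2 * (1 + (L (g : G) : ℝ)) ^ (2 * s))) * ‖ξ‖ := by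
    intro φ ξ
    refine lam_sub_le H (by positivity) (fun ξ' => ?_) ξ
    refine hRD φ ξ' _ fun x => ?_
    rw [Finsupp.sum, Finsupp.sum, sum_apply, lp.coeFn_sum, Finset.sum_apply]
    rfl
  refine ⟨C * (2 : ℝ) ^ s * Real.sqrt (2 * C0), s + (d + 2) / 2, by positivity, by positivity, ?_⟩
  intro f ξ η hη
  have hT : η = (f.sum fun g c => c • lam g) ξ := by
    ext x
    rw [hη x, Finsupp.sum, Finsupp.sum, sum_apply, lp.coeFn_sum, Finset.sum_apply]
    rfl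
  obtain ⟨P, hP⟩ : ∃ P : Finset (G ⧸ H), P = f.support.image fun g : G => (g : G ⧸ H) := ⟨_, rfl⟩
  -- the part on one coset
  obtain ⟨φ, hφ⟩ : ∃ φ : G ⧸ H → (H →₀ ℂ), φ = fun c => cpart (ht1 c) f := ⟨_, rfl⟩
  have hsplit : (f.sum fun g c => c • lam g) =
      ∑ c ∈ P, lam (t c) * ((φ c).sum fun h a => a • lam (h : G)) := by
    have h1 : (f.sum fun g c => c • lam g) = ∑ c ∈ P, ∑ g ∈ f.support.filter (fun g : G => (g : G ⧸ H) = c),
        f g • lam g := by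
      rw [Finsupp.sum]
      refine (Finset.sum_fiberwise_of_maps_to (fun g hg => ?_) _).symm
      rw [hP]
      exact Finset.mem_image_of_mem _ hg
    rw [h1]
    refine Finset.sum_congr rfl fun c _ => ?_
    rw [hφ, ← cpart_sum (ht1 c) f (fun g a => a • lam g), Finsupp.sum, Finsupp.sum,
      Finset.mul_sum]
    refine Finset.sum_congr rfl fun h _ => ?_
    rw [lam_mul, mul_smul_comm]
  -- the norm of one part
  obtain ⟨a, ha⟩ : ∃ a : G ⧸ H → ℝ, a = fun c =>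
      Real.sqrt ((φ c).sum fun g c => ‖c‖ ^ 2 * (1 + (L (g : G) : ℝ)) ^ (2 * s)) := ⟨_, rfl⟩
  have ha0 : ∀ c, 0 ≤ a c := fun c => by rw [ha]; exact Real.sqrt_nonneg _
  have hpart : ∀ c, ‖(lam (t c) * ((φ c).sum fun h a => a • lam (h : G))) ξ‖ ≤ C * a c * ‖ξ‖ := by
    intro c
    show ‖lamIso (t c) (((φ c).sum fun h a => a • lam (h : G)) ξ)‖ ≤ _
    rw [LinearIsometry.norm_map, ha]
    exact hsub (φ c) ξ
  obtain ⟨Sc, hSc⟩ : ∃ Sc : G ⧸ H → ℝ, Sc = fun c => ∑ g ∈ f.support.filter (fun g : G => (g : G ⧸ H) = c),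
      ‖f g‖ ^ 2 * (1 + (L g : ℝ)) ^ (2 * (s + ((d : ℝ) + 2) / 2)) := ⟨_, rfl⟩
  have hac : ∀ c, ((L (t c) : ℝ) + 1) ^ (d + 2) * a c ^ 2 ≤ ((2 : ℝ) ^ s) ^ 2 * Sc c := by
    intro c
    have h1 : a c ^ 2 = (φ c).sum fun g c => ‖c‖ ^ 2 * (1 + (L (g : G) : ℝ)) ^ (2 * s) := by
      rw [ha]
      exact Real.sq_sqrt (Finset.sum_nonneg fun g _ => by positivity)
    have h2 : a c ^ 2 ≤ (φ c).sum fun h a => ‖a‖ ^ 2 * (2 * (1 + (L (t c * (h : G)) : ℝ))) ^ (2 * s) := by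
      rw [h1, Finsupp.sum, Finsupp.sum]
      refine Finset.sum_le_sum fun h _ => ?_
      apply mul_le_mul_of_nonneg_left _ (by positivity)
      apply Real.rpow_le_rpow (by positivity) _ (by positivity)
      have h3 : L (h : G) ≤ L (t c) + L (t c * h) := by
        have := hL.mul (t c)⁻¹ (t c * h)
        rw [inv_mul_cancel_left, hL.inv] at this
        exact this
      have h4 : L (t c) ≤ L (t c * h) := ht2 c _ (by
        rw [QuotientGroup.mk_mul_of_mem _ h.2, ht1 c])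
      have h5 : ((L (h : G) : ℕ) : ℝ) ≤ 2 * (L (t c * h) : ℝ) := by
        have : L (h : G) ≤ 2 * L (t c * h) := by omega
        exact_mod_cast this
      linarith
    rw [hφ] at h2
    have h2' := h2.trans (cpart_sum (ht1 c) f
      (fun g a => ‖a‖ ^ 2 * (2 * (1 + (L g : ℝ))) ^ (2 * s))).le
    clear h2
    calc ((L (t c) : ℝ) + 1) ^ (d + 2) * a c ^ 2
        ≤ ((L (t c) : ℝ) + 1) ^ (d + 2) * ∑ g ∈ f.support.filter (fun g : G => (g : G ⧸ H) = c),
          ‖f g‖ ^ 2 * (2 * (1 + (L g : ℝ))) ^ (2 * s) := by gcongr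
      _ = ∑ g ∈ f.support.filter (fun g : G => (g : G ⧸ H) = c), ((L (t c) : ℝ) + 1) ^ (d + 2) *
          (‖f g‖ ^ 2 * (2 * (1 + (L g : ℝ))) ^ (2 * s)) := by rw [Finset.mul_sum]
      _ ≤ ∑ g ∈ f.support.filter (fun g : G => (g : G ⧸ H) = c), ((2 : ℝ) ^ s) ^ 2 *
          (‖f g‖ ^ 2 * (1 + (L g : ℝ)) ^ (2 * (s + ((d : ℝ) + 2) / 2))) := by
          refine Finset.sum_le_sum fun g hg => ?_
          have h3 : L (t c) ≤ L g := ht2 c g (Finset.mem_filter.1 hg).2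
          have h4 : ((L (t c) : ℝ) + 1) ^ (d + 2) ≤ ((L g : ℝ) + 1) ^ (d + 2) := by
            have : (L (t c) : ℝ) ≤ L g := by exact_mod_cast h3
            gcongr
          have hx : (0 : ℝ) < 1 + (L g : ℝ) := by positivity
          have h5 : (2 * (1 + (L g : ℝ))) ^ (2 * s) = ((2 : ℝ) ^ s) ^ 2 * (1 + (L g : ℝ)) ^ (2 * s) := by
            rw [Real.mul_rpow (by norm_num) hx.le, ← Real.rpow_natCast ((2 : ℝ) ^ s) 2,
              ← Real.rpow_mul (by norm_num)]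
            congr 2
            push_cast
            ring
          have h6 : (1 + (L g : ℝ)) ^ (2 * (s + ((d : ℝ) + 2) / 2)) =
              (1 + (L g : ℝ)) ^ (2 * s) * ((L g : ℝ) + 1) ^ (d + 2) := by
            rw [show 2 * (s + ((d : ℝ) + 2) / 2) = 2 * s + ((d + 2 : ℕ) : ℝ) by push_cast; ring,
              Real.rpow_add hx, Real.rpow_natCast, add_comm (1 : ℝ)]
          rw [h5, h6]
          calc ((L (t c) : ℝ) + 1) ^ (d + 2) *
                (‖f g‖ ^ 2 * (((2 : ℝ) ^ s) ^ 2 * (1 + (L g : ℝ)) ^ (2 * s)))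
              ≤ ((L g : ℝ) + 1) ^ (d + 2) *
                (‖f g‖ ^ 2 * (((2 : ℝ) ^ s) ^ 2 * (1 + (L g : ℝ)) ^ (2 * s))) := by gcongr
            _ = _ := by ring
      _ = ((2 : ℝ) ^ s) ^ 2 * Sc c := by rw [hSc, Finset.mul_sum]
  have hSum : ∑ c ∈ P, Sc c = f.sum fun g c => ‖c‖ ^ 2 * (1 + (L g : ℝ)) ^
      (2 * (s + ((d : ℝ) + 2) / 2)) := by
    rw [hSc, Finsupp.sum]
    refine Finset.sum_fiberwise_of_maps_to (fun g hg => ?_) _
    rw [hP]
    exact Finset.mem_image_of_mem _ hg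
  have hCS : (∑ c ∈ P, a c) ^ 2 ≤ (2 * C0) * (((2 : ℝ) ^ s) ^ 2 * ∑ c ∈ P, Sc c) := by
    have h1 := Finset.sum_sq_le_sum_mul_sum_of_sq_le_mul P (r := a)
      (f := fun c => (((L (t c) : ℝ) + 1) ^ (d + 2))⁻¹)
      (g := fun c => ((L (t c) : ℝ) + 1) ^ (d + 2) * a c ^ 2)
      (fun c _ => by positivity) (fun c _ => by positivity) (fun c _ => by
        rw [← mul_assoc, inv_mul_cancel₀ (by positivity), one_mul])
    refine h1.trans ?_
    have h2 := sum_weights hI t ht1 P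
    have h3 : ∑ c ∈ P, ((L (t c) : ℝ) + 1) ^ (d + 2) * a c ^ 2 ≤
        ((2 : ℝ) ^ s) ^ 2 * ∑ c ∈ P, Sc c := by
      rw [Finset.mul_sum]
      exact Finset.sum_le_sum fun c _ => hac c
    exact mul_le_mul h2 h3 (Finset.sum_nonneg fun c _ => by positivity) (by positivity)
  have hSc0 : 0 ≤ ∑ c ∈ P, Sc c := by
    rw [hSum]
    exact Finset.sum_nonneg fun g _ => by positivity
  have hfin : ∑ c ∈ P, a c ≤ (2 : ℝ) ^ s * Real.sqrt (2 * C0) * Real.sqrt (∑ c ∈ P, Sc c) := by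
    have h1 : (∑ c ∈ P, a c) ^ 2 ≤
        ((2 : ℝ) ^ s * Real.sqrt (2 * C0) * Real.sqrt (∑ c ∈ P, Sc c)) ^ 2 := by
      rw [mul_pow, mul_pow, Real.sq_sqrt (by positivity), Real.sq_sqrt hSc0]
      linarith
    exact le_of_pow_le_pow_left₀ (by norm_num) (by positivity) h1
  rw [hT, hsplit, sum_apply, ← hSum]
  calc ‖∑ c ∈ P, (lam (t c) * ((φ c).sum fun h a => a • lam (h : G))) ξ‖
      ≤ ∑ c ∈ P, C * a c * ‖ξ‖ :=
        (norm_sum_le _ _).trans (Finset.sum_le_sum fun c _ => hpart c)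
    _ = C * (∑ c ∈ P, a c) * ‖ξ‖ := by rw [Finset.mul_sum, Finset.sum_mul]
    _ ≤ C * ((2 : ℝ) ^ s * Real.sqrt (2 * C0) * Real.sqrt (∑ c ∈ P, Sc c)) * ‖ξ‖ := by gcongr
    _ = _ := by ring

theorem groupRD_of_polyIndex (hL : IsLength L) (H : Subgroup G)
    (hH : GroupRD fun h : H => L (h : G)) (hI : PolyIndex L H) : GroupRD L := by
  obtain ⟨C0, d, hI⟩ := hI
  exact groupRD_of_index hL H hH hI

end Pool.Agent.helper72.RDC
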