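import Pool.Agent.helper91.RDR.Main1
import Pool.Agent.helper72.RDC.Defs

/-!
# A quantitative lemma of B. H. Neumann for conjugations
-/

namespace Pool.Agent.helper72.RDC

open Pool.Agent.helper91.RDR

variable {G : Type*} [Group G]

/-- the ball of radius `m` is covered by `|A|` cosets of each centralizer of an element of `F` -/
def Cov (L : G → ℕ) (F A : Finset G) (m : ℕ) : Prop :=
  ∀ y, L y ≤ m → ∃ h ∈ F, ∃ α ∈ A, y * h * y⁻¹ = α * h * α⁻¹

def rho : ℕ → ℕ
  | 0 => 0
  | l + 1 => 2 * rho l + 1

def cc : ℕ → ℕ → ℕ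
  | 0, a => a
  | l + 1, a => cc l (a + a ^ 2)

theorem le_cc (l a : ℕ) : a ≤ cc l a := by
  induction l generalizing a with
  | zero => exact le_rfl
  | succ l ih => exact (Nat.le_add_right a (a ^ 2)).trans (ih _)

theorem cc_mono (l : ℕ) {a b : ℕ} (h : a ≤ b) : cc l a ≤ cc l b := by
  induction l generalizing a b with
  | zero => exact h
  | succ l ih =>
    apply ih
    gcongr

theorem cc_lt (l a : ℕ) : cc l a < (a + 1) ^ (2 ^ l) := by
  induction l generalizing a with
  | zero => simp [cc]
  | succ l ih =>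
    refine (ih _).trans_le ?_
    rw [pow_succ 2 l, mul_comm (2 ^ l) 2, pow_mul]
    apply Nat.pow_le_pow_left
    nlinarith

theorem cov_step [DecidableEq G] {L : G → ℕ} (hL : IsLength L) {F A : Finset G} {h : G} {n m : ℕ}
    (hc : Cov L (insert h F) A (2 * m + n)) :
    (∀ b, L b ≤ n → ∃ α ∈ A, b * h * b⁻¹ = α * h * α⁻¹) ∨
      ∃ A' : Finset G, A'.card ≤ A.card + A.card ^ 2 ∧ Cov L F A' m := by
  classical
  by_cases hb : ∀ b, L b ≤ n → ∃ α ∈ A, b * h * b⁻¹ = α * h * α⁻¹
  · exact Or.inl hb
  · right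
    push Not at hb
    obtain ⟨b, hb1, hb2⟩ := hb
    let rep : G → G := fun a =>
      if H : ∃ a', L a' ≤ m ∧ a' * h * a'⁻¹ = a * h * a⁻¹ then H.choose else a
    have hrep : ∀ a, (∃ a', L a' ≤ m ∧ a' * h * a'⁻¹ = a * h * a⁻¹) →
        L (rep a) ≤ m ∧ rep a * h * (rep a)⁻¹ = a * h * a⁻¹ := by
      intro a H
      have : rep a = H.choose := dif_pos H
      rw [this]
      exact H.choose_spec
    refine ⟨A ∪ (A ×ˢ A).image fun q => rep q.1 * b⁻¹ * q.2, ?_, ?_⟩
    · refine (Finset.card_union_le _ _).trans ?_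
      have := Finset.card_image_le (s := A ×ˢ A) (f := fun q => rep q.1 * b⁻¹ * q.2)
      rw [Finset.card_product] at this
      rw [sq]
      omega
    · intro y hy
      obtain ⟨h', hh', α, hα, he⟩ := hc y (by omega)
      rw [Finset.mem_insert] at hh'
      rcases hh' with rfl | hh'
      · obtain ⟨r1, r2⟩ := hrep α ⟨y, hy, he⟩
        obtain ⟨x, hx⟩ : ∃ x, x = (rep α)⁻¹ * y := ⟨_, rfl⟩
        have hxc : x * h' * x⁻¹ = h' := by
          have e1 : y * h' * y⁻¹ = rep α * h' * (rep α)⁻¹ := he.trans r2.symm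
          rw [hx, mul_inv_rev, inv_inv]
          calc (rep α)⁻¹ * y * h' * (y⁻¹ * rep α) = (rep α)⁻¹ * (y * h' * y⁻¹) * rep α := by group
            _ = _ := by rw [e1]; group
        have hLx : L x ≤ 2 * m := by
          rw [hx]
          refine (hL.mul _ _).trans ?_
          rw [hL.inv]
          omega
        obtain ⟨h'', hh'', β, hβ, he2⟩ := hc (b * x) ((hL.mul _ _).trans (by omega))
        rw [Finset.mem_insert] at hh''
        rcases hh'' with hh'' | hh''
        · exfalso
          apply hb2 β hβ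
          rw [hh''] at he2
          rw [← he2, mul_inv_rev]
          calc b * h' * b⁻¹ = b * (x * h' * x⁻¹) * b⁻¹ := by rw [hxc]
            _ = _ := by group
        · refine ⟨h'', hh'', rep α * b⁻¹ * β, ?_, ?_⟩
          · apply Finset.mem_union_right
            rw [Finset.mem_image]
            exact ⟨(α, β), Finset.mem_product.2 ⟨hα, hβ⟩, rfl⟩
          · have e1 : y = rep α * x := by rw [hx]; group
            rw [e1]
            calc rep α * x * h'' * (rep α * x)⁻¹
                = rep α * b⁻¹ * (b * x * h'' * (b * x)⁻¹) * (rep α * b⁻¹)⁻¹ := by group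
              _ = rep α * b⁻¹ * (β * h'' * β⁻¹) * (rep α * b⁻¹)⁻¹ := by rw [he2]
              _ = _ := by group
      · exact ⟨h', hh', α, Finset.mem_union_left _ hα, he⟩

/-- If a ball is covered by few cosets of centralizers then one of the conjugacy classes is small. -/
theorem cov_small {L : G → ℕ} (hL : IsLength L) (n : ℕ) (F : Finset G) :
    ∀ A : Finset G, Cov L F A (rho F.card * n) → ∃ h ∈ F, ConjSize L h n ≤ cc F.card A.card := by
  classical
  induction F using Finset.induction_on with
  | empty =>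
    intro A hc
    obtain ⟨h, hh, -⟩ := hc 1 (by rw [hL.one]; exact Nat.zero_le _)
    exact absurd hh (Finset.notMem_empty h)
  | insert h F hF ih =>
    intro A hc
    rw [Finset.card_insert_of_notMem hF] at hc ⊢
    have hc' : Cov L (insert h F) A (2 * (rho F.card * n) + n) := by
      have : rho (F.card + 1) * n = 2 * (rho F.card * n) + n := by
        show (2 * rho F.card + 1) * n = _
        ring
      rwa [this] at hc
    rcases cov_step hL hc' with h1 | ⟨A', hA', h1⟩
    · refine ⟨h, Finset.mem_insert_self _ _, ?_⟩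
      have h2 : {x | ∃ g : G, L g ≤ n ∧ x = g * h * g⁻¹} ⊆
          ((A.image fun α => α * h * α⁻¹ : Finset G) : Set G) := by
        rintro x ⟨g, hg, rfl⟩
        obtain ⟨α, hα, he⟩ := h1 g hg
        rw [he]
        exact Finset.mem_coe.2 (Finset.mem_image_of_mem _ hα)
      calc ConjSize L h n ≤ ((A.image fun α => α * h * α⁻¹ : Finset G) : Set G).encard :=
            Set.encard_le_encard h2
        _ = ((A.image fun α => α * h * α⁻¹).card : ℕ∞) := Set.encard_coe_eq_coe_finsetCard _
        _ ≤ (cc (F.card + 1) A.card : ℕ∞) := by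
            exact_mod_cast Finset.card_image_le.trans (le_cc _ _)
    · obtain ⟨h', hh', h2⟩ := ih A' h1
      refine ⟨h', Finset.mem_insert_of_mem hh', h2.trans ?_⟩
      exact_mod_cast cc_mono F.card hA'

/-- Many elements with pairwise distinct conjugates of all elements of `F`. -/
theorem exists_sep {L : G → ℕ} (hL : IsLength L) {F : Finset G} (hF : F.Nonempty) {n M : ℕ}
    (h : ∀ h ∈ F, (cc F.card M : ℕ∞) < ConjSize L h n) :
    ∀ m, m ≤ M → ∃ A : Finset G, A.card = m ∧ (∀ a ∈ A, L a ≤ rho F.card * n) ∧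
      ∀ h ∈ F, Set.InjOn (fun a => a * h * a⁻¹) (A : Set G) := by
  classical
  intro m
  induction m with
  | zero => exact fun _ => ⟨∅, rfl, by simp, by simp⟩
  | succ m ih =>
    intro hm
    obtain ⟨A, hA1, hA2, hA3⟩ := ih (by omega)
    have hnc : ¬ Cov L F A (rho F.card * n) := by
      intro hc
      obtain ⟨h', hh', h2⟩ := cov_small hL n F A hc
      have h3 := h h' hh'
      have h4 : (cc F.card A.card : ℕ∞) ≤ cc F.card M := by
        exact_mod_cast cc_mono F.card (by omega)
      exact absurd (h3.trans_le (h2.trans h4)) (lt_irrefl _)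
    unfold Cov at hnc
    push Not at hnc
    obtain ⟨y, hy1, hy2⟩ := hnc
    obtain ⟨h0, hh0⟩ := hF
    have hyA : y ∉ A := fun hyA => hy2 h0 hh0 y hyA rfl
    refine ⟨insert y A, ?_, ?_, ?_⟩
    · rw [Finset.card_insert_of_notMem hyA, hA1]
    · intro a ha
      rw [Finset.mem_insert] at ha
      rcases ha with rfl | ha
      · exact hy1
      · exact hA2 a ha
    · intro h' hh' a ha b hb hab
      rw [Finset.coe_insert, Set.mem_insert_iff] at ha hb
      rcases ha with rfl | ha <;> rcases hb with rfl | hb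
      · rfl
      · exact absurd hab (hy2 h' hh' b hb)
      · exact absurd hab.symm (hy2 h' hh' a ha)
      · exact hA3 h' hh' ha hb hab

end Pool.Agent.helper72.RDC
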