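import Pool.Agent.helper72.RDC.Avg

/-!
# Weak containment of the regular representation from the bound of the trace
-/

namespace Pool.Agent.helper72.RDC

open Pool.Agent.helper91.RDR
open scoped InnerProductSpace
open Filter Topology

variable {G : Type*} [Group G] {L : G → ℕ} {V : Type*} [NormedAddCommGroup V]
  [InnerProductSpace ℂ V] [CompleteSpace V]

/-- the unit vector at `1` -/
noncomputable def dl (G : Type*) [Group G] [DecidableEq G] : lp (fun _ : G => ℂ) 2 :=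
  lp.single 2 1 (1 : ℂ)

theorem lam_dl [DecidableEq G] (g : G) : lam g (dl G) = lp.single 2 g (1 : ℂ) := by
  ext x
  show dl G (g⁻¹ * x) = _
  by_cases hx : x = g
  · subst hx
    rw [inv_mul_cancel, lp.single_apply_self]
    exact lp.single_apply_self ..
  · rw [lp.single_apply_ne _ _ _ hx]
    apply lp.single_apply_ne
    intro h
    exact hx (inv_mul_eq_one.1 h).symm

theorem inner_dl [DecidableEq G] (f : G →₀ ℂ) :
    inner ℂ (dl G) ((f.sum fun g c => c • lam g) (dl G)) = f 1 := by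
  have h1 : (f.sum fun g c => c • lam g) (dl G) = f.sum fun g c => c • lp.single 2 g (1 : ℂ) := by
    rw [Finsupp.sum, Finsupp.sum, sum_apply]
    exact Finset.sum_congr rfl fun g _ => by rw [smul_apply, lam_dl]
  have h2 : inner ℂ (dl G) ((f.sum fun g c => c • lam g) (dl G)) =
      ((f.sum fun g c => c • lam g) (dl G)) 1 := by
    have := lp.inner_single_left (𝕜 := ℂ) (G := fun _ : G => ℂ) (1 : G) (1 : ℂ)
      ((f.sum fun g c => c • lam g) (dl G))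
    simpa [dl] using this
  rw [h2, h1, Finsupp.sum, lp.coeFn_sum, Finset.sum_apply]
  have h3 : ∀ g ∈ f.support, (f g • (lp.single 2 g (1 : ℂ) : lp (fun _ : G => ℂ) 2)) 1 =
      if g = 1 then f 1 else 0 := by
    intro g _
    by_cases hg : g = 1
    · subst hg
      rw [if_pos rfl]
      show f 1 • (lp.single 2 1 (1 : ℂ) : lp (fun _ : G => ℂ) 2) 1 = f 1
      rw [lp.single_apply_self, smul_eq_mul, mul_one]
    · rw [if_neg hg]
      show f g • (lp.single 2 g (1 : ℂ) : lp (fun _ : G => ℂ) 2) 1 = 0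
      rw [lp.single_apply_ne _ _ _ (Ne.symm hg), smul_zero]
  rw [Finset.sum_congr rfl h3, Finset.sum_ite_eq']
  split_ifs with h
  · rfl
  · exact (Finsupp.notMem_support_iff.1 h).symm

/-- the trace of a pair -/
theorem pair_trace [DecidableEq G] {π : G →* unitary (V →L[ℂ] V)}
    (ht : ∀ f : G →₀ ℂ, ‖f 1‖ ≤ ‖f.sum fun g c => c • (π g : V →L[ℂ] V)‖) {R : ℕ} {x}
    (hx : x ∈ ballSpan L (pairRep π) R) : ‖(inner ℂ (dl G) (x.1 (dl G)) : ℂ)‖ ≤ ‖x.2‖ := by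
  obtain ⟨f, hf, rfl⟩ := ballSpan_exists _ hx
  rw [fst_sum, snd_sum, inner_dl]
  exact ht f

/-- Cauchy-Schwarz for powers of a self-adjoint operator -/
theorem pow_norm_le {H : Type*} [NormedAddCommGroup H] [InnerProductSpace ℂ H] [CompleteSpace H]
    {Y : H →L[ℂ] H} (hY : IsSelfAdjoint Y) (ζ : H) (k : ℕ) :
    ‖Y ζ‖ ^ (2 ^ k) * ‖ζ‖ ≤ ‖(Y ^ (2 ^ k)) ζ‖ * ‖ζ‖ ^ (2 ^ k) := by
  have hsq : ∀ j : ℕ, ‖(Y ^ j) ζ‖ ^ 2 ≤ ‖(Y ^ (2 * j)) ζ‖ * ‖ζ‖ := by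
    intro j
    have h1 : IsSelfAdjoint (Y ^ j) := hY.pow j
    have h2 : inner ℂ ((Y ^ j) ζ) ((Y ^ j) ζ) = inner ℂ ((Y ^ (2 * j)) ζ) ζ := by
      have h3 : ContinuousLinearMap.adjoint (Y ^ j) = Y ^ j := by
        rw [← ContinuousLinearMap.star_eq_adjoint]
        exact h1
      rw [← ContinuousLinearMap.adjoint_inner_left, h3, two_mul, pow_add]
      rfl
    have h3 : ‖(Y ^ j) ζ‖ ^ 2 = ‖(inner ℂ ((Y ^ j) ζ) ((Y ^ j) ζ) : ℂ)‖ := by
      rw [inner_self_eq_norm_sq_to_K]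
      simp
    rw [h3, h2]
    exact norm_inner_le_norm _ _
  induction k with
  | zero => simp
  | succ k ih =>
    have h1 := hsq (2 ^ k)
    have h2 : 2 * 2 ^ k = 2 ^ (k + 1) := by rw [pow_succ]; ring
    rw [h2] at h1
    rcases eq_or_lt_of_le (norm_nonneg ζ) with h0 | h0
    · rw [← h0]
      simp
    · have h3 : (‖Y ζ‖ ^ (2 ^ k) * ‖ζ‖) ^ 2 ≤ (‖(Y ^ (2 ^ k)) ζ‖ * ‖ζ‖ ^ (2 ^ k)) ^ 2 :=
        pow_le_pow_left₀ (by positivity) ih 2
      have h4 : (‖Y ζ‖ ^ (2 ^ (k + 1)) * ‖ζ‖) * ‖ζ‖ ≤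
          (‖(Y ^ (2 ^ (k + 1))) ζ‖ * ‖ζ‖ ^ (2 ^ (k + 1))) * ‖ζ‖ := by
        calc (‖Y ζ‖ ^ (2 ^ (k + 1)) * ‖ζ‖) * ‖ζ‖ = (‖Y ζ‖ ^ (2 ^ k) * ‖ζ‖) ^ 2 := by
              rw [← h2, pow_mul']; ring
          _ ≤ (‖(Y ^ (2 ^ k)) ζ‖ * ‖ζ‖ ^ (2 ^ k)) ^ 2 := h3
          _ = ‖(Y ^ (2 ^ k)) ζ‖ ^ 2 * ‖ζ‖ ^ (2 * 2 ^ k) := by rw [pow_mul']; ring
          _ ≤ (‖(Y ^ (2 ^ (k + 1))) ζ‖ * ‖ζ‖) * ‖ζ‖ ^ (2 * 2 ^ k) := by gcongr
          _ = _ := by rw [h2]; ring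
      exact le_of_mul_le_mul_right h4 h0

/-- **The regular representation is weakly contained in `π`.** -/
theorem pair_norm_le (hL : IsLength L) {π : G →* unitary (V →L[ℂ] V)}
    (ht : ∀ f : G →₀ ℂ, ‖f 1‖ ≤ ‖f.sum fun g c => c • (π g : V →L[ℂ] V)‖) {R : ℕ} {x}
    (hx : x ∈ ballSpan L (pairRep π) R) : ‖x.1‖ ≤ ‖x.2‖ := by
  classical
  obtain ⟨y, hy⟩ : ∃ y, y = star x * x := ⟨_, rfl⟩
  have hyR : y ∈ ballSpan L (pairRep π) (R + R) := by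
    rw [hy]
    exact ballSpan_mul hL _ (ballSpan_star hL _ (pairRep_star π) hx) hx
  have hsa1 : IsSelfAdjoint y.1 := by
    rw [hy]
    exact IsSelfAdjoint.star_mul_self x.1
  have hn1 : ‖y.1‖ = ‖x.1‖ ^ 2 := by
    rw [hy]
    exact (CStarRing.norm_star_mul_self (x := x.1)).trans (sq _).symm
  have hn2 : ‖y.2‖ = ‖x.2‖ ^ 2 := by
    rw [hy]
    exact (CStarRing.norm_star_mul_self (x := x.2)).trans (sq _).symm
  have hsa2 : IsSelfAdjoint y.2 := by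
    rw [hy]
    exact IsSelfAdjoint.star_mul_self x.2
  -- vectors `u δ`
  have key : ∀ (R' : ℕ) (u), u ∈ ballSpan L (pairRep π) R' →
      ‖y.1 (u.1 (dl G))‖ ≤ ‖y.2‖ * ‖u.1 (dl G)‖ := by
    intro R' u hu
    obtain ⟨ζ, hζ⟩ : ∃ ζ, ζ = u.1 (dl G) := ⟨_, rfl⟩
    rw [← hζ]
    rcases eq_or_lt_of_le (norm_nonneg ζ) with h0 | h0
    · rw [norm_eq_zero.1 h0.symm, map_zero, norm_zero, mul_zero]
    have hpow : ∀ k : ℕ, ‖(y.1 ^ (2 ^ k)) ζ‖ ^ 2 ≤ ‖u.2‖ ^ 2 * ‖y.2‖ ^ (2 * 2 ^ k) := by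
      intro k
      obtain ⟨w, hw⟩ : ∃ w, w = star u * (y ^ (2 * 2 ^ k)) * u := ⟨_, rfl⟩
      have hwR := ballSpan_mul hL _ (ballSpan_mul hL _ (ballSpan_star hL _ (pairRep_star π) hu)
        (ballSpan_pow hL _ hyR (2 * 2 ^ k))) hu
      rw [← hw] at hwR
      have h1 := pair_trace ht hwR
      have h2 : (inner ℂ (dl G) (w.1 (dl G)) : ℂ) =
          inner ℂ ((y.1 ^ (2 ^ k)) ζ) ((y.1 ^ (2 ^ k)) ζ) := by
        have h3 : ContinuousLinearMap.adjoint (y.1 ^ 2 ^ k) = y.1 ^ 2 ^ k := by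
          rw [← ContinuousLinearMap.star_eq_adjoint]
          exact hsa1.pow _
        have h4 : w.1 = ContinuousLinearMap.adjoint u.1 * (y.1 ^ (2 ^ k) * y.1 ^ (2 ^ k)) * u.1 := by
          rw [hw, ← pow_add, ← two_mul]
          rfl
        rw [h4]
        show (inner ℂ (dl G) ((ContinuousLinearMap.adjoint u.1)
          ((y.1 ^ (2 ^ k)) ((y.1 ^ (2 ^ k)) (u.1 (dl G))))) : ℂ) = _
        rw [ContinuousLinearMap.adjoint_inner_right, ← hζ]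
        conv_lhs => rw [← h3]
        rw [ContinuousLinearMap.adjoint_inner_right]
        rw [h3]
      have h5 : ‖(y.1 ^ (2 ^ k)) ζ‖ ^ 2 = ‖(inner ℂ (dl G) (w.1 (dl G)) : ℂ)‖ := by
        rw [h2, inner_self_eq_norm_sq_to_K]
        simp
      rw [h5]
      refine h1.trans ?_
      have h6 : w.2 = star u.2 * y.2 ^ (2 * 2 ^ k) * u.2 := by
        rw [hw]
        rfl
      rw [h6]
      calc ‖star u.2 * y.2 ^ (2 * 2 ^ k) * u.2‖ ≤ ‖star u.2 * y.2 ^ (2 * 2 ^ k)‖ * ‖u.2‖ :=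
            norm_mul_le _ _
        _ ≤ (‖star u.2‖ * ‖y.2 ^ (2 * 2 ^ k)‖) * ‖u.2‖ := by
            gcongr
            exact norm_mul_le _ _
        _ ≤ (‖u.2‖ * ‖y.2‖ ^ (2 * 2 ^ k)) * ‖u.2‖ := by
            rw [norm_star]
            gcongr
            exact norm_pow_le' _ (by positivity)
        _ = _ := by ring
    have h1 : ‖y.1 ζ‖ ^ 2 ≤ (‖y.2‖ * ‖ζ‖) ^ 2 := by
      refine exp_poly (C := ‖u.2‖ ^ 2 / ‖ζ‖ ^ 2) (R := 0) (s := 0) (by positivity) le_rfl ?_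
      intro k
      have h2 := pow_norm_le hsa1 ζ k
      have h3 := hpow k
      rw [Real.rpow_zero, mul_one, div_mul_eq_mul_div, le_div_iff₀ (by positivity)]
      calc (‖y.1 ζ‖ ^ 2) ^ 2 ^ k * ‖ζ‖ ^ 2 = (‖y.1 ζ‖ ^ (2 ^ k) * ‖ζ‖) ^ 2 := by
            rw [← pow_mul, mul_comm 2, pow_mul]; ring
        _ ≤ (‖(y.1 ^ (2 ^ k)) ζ‖ * ‖ζ‖ ^ (2 ^ k)) ^ 2 := pow_le_pow_left₀ (by positivity) h2 2
        _ = ‖(y.1 ^ (2 ^ k)) ζ‖ ^ 2 * (‖ζ‖ ^ (2 ^ k)) ^ 2 := by ring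
        _ ≤ (‖u.2‖ ^ 2 * ‖y.2‖ ^ (2 * 2 ^ k)) * (‖ζ‖ ^ (2 ^ k)) ^ 2 := by gcongr
        _ = _ := by rw [pow_mul]; ring
    exact le_of_pow_le_pow_left₀ (by norm_num) (by positivity) h1
  -- all vectors
  have hall : ∀ ζ : lp (fun _ : G => ℂ) 2, ‖y.1 ζ‖ ≤ ‖y.2‖ * ‖ζ‖ := by
    intro ζ
    have h1 : HasSum (fun g => (lp.single 2 g (ζ g) : lp (fun _ : G => ℂ) 2)) ζ :=
      lp.hasSum_single (by norm_num) ζ
    have h2 : ∀ F : Finset G, ‖y.1 (∑ g ∈ F, lp.single 2 g (ζ g))‖ ≤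
        ‖y.2‖ * ‖∑ g ∈ F, (lp.single 2 g (ζ g) : lp (fun _ : G => ℂ) 2)‖ := by
      intro F
      have h3 : (∑ g ∈ F, (lp.single 2 g (ζ g) : lp (fun _ : G => ℂ) 2)) =
          (∑ g ∈ F, ζ g • pairRep π g).1 (dl G) := by
        rw [Prod.fst_sum, sum_apply]
        refine Finset.sum_congr rfl fun g _ => ?_
        show _ = ζ g • lam g (dl G)
        rw [lam_dl]
        have : ζ g = ζ g • (1 : ℂ) := by simp
        conv_lhs => rw [this]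
        rw [lp.single_smul]
      rw [h3]
      refine key (F.sup L) _ ?_
      refine Submodule.sum_mem _ fun g hg => Submodule.smul_mem _ _ (Submodule.subset_span ?_)
      exact ⟨g, Finset.le_sup (f := L) hg, rfl⟩
    have h4 : Tendsto (fun F : Finset G => ‖y.1 (∑ g ∈ F, lp.single 2 g (ζ g))‖) atTop
        (𝓝 ‖y.1 ζ‖) := ((y.1.continuous.tendsto ζ).comp h1).norm
    have h5 : Tendsto (fun F : Finset G =>
        ‖y.2‖ * ‖∑ g ∈ F, (lp.single 2 g (ζ g) : lp (fun _ : G => ℂ) 2)‖) atTop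
        (𝓝 (‖y.2‖ * ‖ζ‖)) := (Tendsto.norm h1).const_mul _
    exact le_of_tendsto_of_tendsto' h4 h5 h2
  have hfin : ‖y.1‖ ≤ ‖y.2‖ := ContinuousLinearMap.opNorm_le_bound _ (norm_nonneg _) hall
  rw [hn1, hn2] at hfin
  exact le_of_pow_le_pow_left₀ (by norm_num) (norm_nonneg _) hfin

/-- Property RD of the group from a representation with a bounded trace. -/
theorem groupRD_of_trace [Nontrivial V] (hL : IsLength L) {π : G →* unitary (V →L[ℂ] V)}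
    (hπ : RepRD L π)
    (ht : ∀ f : G →₀ ℂ, ‖f 1‖ ≤ ‖f.sum fun g c => c • (π g : V →L[ℂ] V)‖) : GroupRD L := by
  obtain ⟨s, hs, C, hC⟩ := hπ
  have hC0 := RepRD.nonneg hC
  refine ⟨Real.sqrt C, s / 2, Real.sqrt_nonneg _, by positivity, ?_⟩
  intro f ξ η hη
  have hT : η = (f.sum fun g c => c • lam g) ξ := by
    ext x
    rw [hη x, Finsupp.sum, Finsupp.sum, sum_apply, lp.coeFn_sum, Finset.sum_apply]
    rfl
  have hx : (f.sum fun g c => c • pairRep π g) ∈ ballSpan L (pairRep π) (f.support.sup L) := by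
    refine Submodule.sum_mem _ fun g hg => Submodule.smul_mem _ _ (Submodule.subset_span ?_)
    exact ⟨g, Finset.le_sup (f := L) hg, rfl⟩
  have h1 := pair_norm_le hL ht hx
  rw [fst_sum, snd_sum] at h1
  have h2 := rd_norm π hC0 hC f
  have h3 : ‖f.sum fun g c => c • (π g : V →L[ℂ] V)‖ ≤
      Real.sqrt C * Real.sqrt (f.sum fun g c => ‖c‖ ^ 2 * (1 + (L g : ℝ)) ^ s) := by
    rw [← Real.sqrt_mul hC0]
    exact Real.le_sqrt_of_sq_le h2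
  have h4 : 2 * (s / 2) = s := by ring
  rw [h4, hT]
  calc ‖(f.sum fun g c => c • lam g) ξ‖ ≤ ‖f.sum fun g c => c • lam g‖ * ‖ξ‖ :=
        ContinuousLinearMap.le_opNorm _ _
    _ ≤ _ := mul_le_mul_of_nonneg_right (h1.trans h3) (norm_nonneg _)

end Pool.Agent.helper72.RDC
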